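import Pool.Agent.V1173.Fock.Local

/-!
# The induced distance

Helper file for `MP_09e892_an`.
-/

open MeasureTheory Metric Set
open scoped ENNReal

namespace Pool.Agent.V1173.Fock

variable {n : ℕ}

theorem integrable_gauss_one {b : ℝ} (hb : 0 < b) :
    Integrable (fun z : ℂ => Real.exp (-(b * ‖z‖ ^ 2))) (volume : Measure ℂ) := by
  have h := GaussianFourier.integrable_cexp_neg_mul_sq_norm_add (V := ℂ) (b := (b : ℂ))
    (by simpa using hb) 0 0
  have h2 := h.norm
  refine h2.congr (Filter.Eventually.of_forall fun z => ?_)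
  simp only [zero_mul, add_zero, Complex.norm_exp]
  congr 1
  have : (-(b : ℂ) * (‖z‖ : ℂ) ^ 2) = ((-(b * ‖z‖ ^ 2) : ℝ) : ℂ) := by push_cast; ring
  rw [this, Complex.ofReal_re]

theorem integrable_gauss {b : ℝ} (hb : 0 < b) :
    Integrable (fun z : Fin n → ℂ => Real.exp (-(b * nsq z))) volume := by
  have h := Integrable.fintype_prod (f := fun (_ : Fin n) (z : ℂ) => Real.exp (-(b * ‖z‖ ^ 2)))
    (fun _ => integrable_gauss_one hb)
  refine h.congr (Filter.Eventually.of_forall fun z => ?_)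
  simp only
  rw [← Real.exp_sum]
  congr 1
  unfold nsq
  rw [Finset.mul_sum, Finset.sum_neg_distrib]

/-- Gaussian density `(β/π)^n e^{-β|u|²}`. -/
noncomputable def gdens (n : ℕ) (β : ℝ) (u : Fin n → ℂ) : ℝ :=
  (β / Real.pi) ^ n * Real.exp (-(β * nsq u))

/-- the induced distance -/
noncomputable def dis (α : ℝ) (z w : Fin n → ℂ) : ℝ :=
  ∫ u, ‖Complex.exp (α * dot z u) - Complex.exp (α * dot w u)‖ * gdens n (α / 2) u

theorem dis_symm (α : ℝ) (z w : Fin n → ℂ) : dis α z w = dis α w z := by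
  unfold dis
  refine integral_congr_ae (Filter.Eventually.of_forall fun u => ?_)
  simp only
  rw [norm_sub_rev]

theorem dot_conj (z u : Fin n → ℂ) : (starRingEnd ℂ) (dot z u) = dot u z := by
  unfold dot
  rw [map_sum]
  refine Finset.sum_congr rfl fun i _ => ?_
  rw [map_mul, Complex.conj_conj, mul_comm]

theorem dot_re_comm (z u : Fin n → ℂ) : (dot z u).re = (dot u z).re := by
  rw [← dot_conj u z, Complex.conj_re]

theorem dot_sub_left (z w u : Fin n → ℂ) : dot (z - w) u = dot z u - dot w u := by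
  unfold dot
  rw [← Finset.sum_sub_distrib]
  refine Finset.sum_congr rfl fun i _ => ?_
  rw [Pi.sub_apply, sub_mul]

theorem dot_add_left (z w u : Fin n → ℂ) : dot (z + w) u = dot z u + dot w u := by
  unfold dot
  rw [← Finset.sum_add_distrib]
  refine Finset.sum_congr rfl fun i _ => ?_
  rw [Pi.add_apply, add_mul]

theorem dot_sub_right (u z w : Fin n → ℂ) : dot u (z - w) = dot u z - dot u w := by
  unfold dot
  rw [← Finset.sum_sub_distrib]
  refine Finset.sum_congr rfl fun i _ => ?_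
  rw [Pi.sub_apply, map_sub, mul_sub]

theorem dot_self (z : Fin n → ℂ) : dot z z = (nsq z : ℂ) := by
  unfold dot nsq
  push_cast
  refine Finset.sum_congr rfl fun i _ => ?_
  rw [Complex.mul_conj, Complex.normSq_eq_norm_sq]
  push_cast
  rfl

theorem continuous_dot_left (z : Fin n → ℂ) : Continuous fun u => dot u z := by
  unfold dot
  fun_prop

theorem continuous_dot_right (z : Fin n → ℂ) : Continuous fun u => dot z u := by
  unfold dot
  fun_prop

/-- `|e^{α w ū}| e^{-α|u|²/2} = e^{α|w|²/2} e^{-α|u-w|²/2}` -/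
theorem norm_exp_dot (α : ℝ) (w u : Fin n → ℂ) :
    ‖Complex.exp (α * dot w u)‖ * Real.exp (-(α / 2 * nsq u)) =
      Real.exp (α * nsq w / 2) * Real.exp (-(α / 2 * nsq (u - w))) := by
  rw [Complex.norm_exp, Complex.re_ofReal_mul, ← Real.exp_add, ← Real.exp_add]
  congr 1
  have h1 := dot_sub_re u w
  rw [dot_sub_left, dot_self, Complex.sub_re, Complex.ofReal_re, dot_re_comm] at h1
  have h2 : (dot w u).re = (nsq u + nsq w - nsq (u - w)) / 2 := by linarith
  rw [h2]
  ring

theorem integrable_dis {α : ℝ} (hα : 0 < α) (z w : Fin n → ℂ) :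
    Integrable (fun u => ‖Complex.exp (α * dot z u) - Complex.exp (α * dot w u)‖ *
      gdens n (α / 2) u) volume := by
  have hg : ∀ a : Fin n → ℂ, Integrable (fun u => Real.exp (-(α / 2 * nsq (u - a)))) volume :=
    fun a => (integrable_gauss (n := n) (b := α / 2) (by positivity)).comp_sub_right a
  have hb : Integrable (fun u => (α / 2 / Real.pi) ^ n *
      (Real.exp (α * nsq z / 2) * Real.exp (-(α / 2 * nsq (u - z))) +
      Real.exp (α * nsq w / 2) * Real.exp (-(α / 2 * nsq (u - w))))) volume :=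
    (((hg z).const_mul _).add ((hg w).const_mul _)).const_mul _
  refine hb.mono' ?_ (Filter.Eventually.of_forall fun u => ?_)
  · have h1 := continuous_dot_right z
    have h2 := continuous_dot_right w
    have h3 := continuous_nsq (n := n)
    unfold gdens
    exact Continuous.aestronglyMeasurable (by fun_prop)
  · unfold gdens
    rw [Real.norm_eq_abs, abs_of_nonneg (by positivity)]
    rw [← norm_exp_dot, ← norm_exp_dot]
    have h1 := norm_sub_le (Complex.exp (α * dot z u)) (Complex.exp (α * dot w u))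
    calc ‖Complex.exp (α * dot z u) - Complex.exp (α * dot w u)‖ *
          ((α / 2 / Real.pi) ^ n * Real.exp (-(α / 2 * nsq u)))
        ≤ (‖Complex.exp (α * dot z u)‖ + ‖Complex.exp (α * dot w u)‖) *
          ((α / 2 / Real.pi) ^ n * Real.exp (-(α / 2 * nsq u))) := by gcongr
      _ = _ := by ring

/-- the local integral -/
theorem dis_ge {α : ℝ} (hα : 0 < α) (z w : Fin n → ℂ) :
    ENNReal.ofReal ((α / 2 / Real.pi) ^ n * Real.exp (α * nsq w / 2) * Real.exp (-(2 * α * n))) *
      ∫⁻ u in ball w 2, ‖Complex.exp (α * dot u (z - w)) - 1‖ₑ ≤ ENNReal.ofReal (dis α z w) := by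
  unfold dis
  rw [ofReal_integral_eq_lintegral_ofReal (integrable_dis hα z w)
    (Filter.Eventually.of_forall fun u => by unfold gdens; positivity)]
  rw [← lintegral_const_mul' _ _ ENNReal.ofReal_ne_top]
  refine (setLIntegral_mono' measurableSet_ball fun u hu => ?_).trans (setLIntegral_le_lintegral _ _)
  rw [← ofReal_norm, ← ENNReal.ofReal_mul (by positivity)]
  apply ENNReal.ofReal_le_ofReal
  have h1 : ‖Complex.exp (α * dot z u) - Complex.exp (α * dot w u)‖ =
      ‖Complex.exp (α * dot w u)‖ * ‖Complex.exp (α * dot u (z - w)) - 1‖ := by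
    have h2 : ‖Complex.exp (α * dot u (z - w)) - 1‖ = ‖Complex.exp (α * dot (z - w) u) - 1‖ := by
      rw [← RCLike.norm_conj (Complex.exp (α * dot u (z - w)) - 1), map_sub, map_one,
        ← Complex.exp_conj, map_mul, dot_conj, Complex.conj_ofReal]
    rw [h2, ← norm_mul, mul_sub, mul_one, ← Complex.exp_add, dot_sub_left]
    congr 3
    ring
  rw [h1]
  unfold gdens
  have h3 := norm_exp_dot α w u
  have h4 : nsq (u - w) ≤ 4 * n := by
    refine (nsq_le _).trans ?_
    rw [mem_ball, dist_eq_norm] at hu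
    have : ‖u - w‖ ^ 2 ≤ 4 := by nlinarith [norm_nonneg (u - w)]
    nlinarith [(Nat.cast_nonneg n : (0 : ℝ) ≤ n)]
  have h5 : Real.exp (-(2 * α * n)) ≤ Real.exp (-(α / 2 * nsq (u - w))) := by
    rw [Real.exp_le_exp]
    nlinarith
  calc (α / 2 / Real.pi) ^ n * Real.exp (α * nsq w / 2) * Real.exp (-(2 * α * n)) *
        ‖Complex.exp (α * dot u (z - w)) - 1‖
      ≤ (α / 2 / Real.pi) ^ n * Real.exp (α * nsq w / 2) * Real.exp (-(α / 2 * nsq (u - w))) *
        ‖Complex.exp (α * dot u (z - w)) - 1‖ := by gcongr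
    _ = (α / 2 / Real.pi) ^ n * (Real.exp (α * nsq w / 2) * Real.exp (-(α / 2 * nsq (u - w)))) *
        ‖Complex.exp (α * dot u (z - w)) - 1‖ := by ring
    _ = _ := by
      rw [← h3]
      ring

/-- first lower bound for the local integral -/
theorem local_ge_one (α : ℝ) (z w : Fin n → ℂ) :
    ‖Complex.exp (α * dot w (z - w)) - 1‖ₑ * volume (ball (0 : Fin n → ℂ) 2) ≤
      ∫⁻ u in ball w 2, ‖Complex.exp (α * dot u (z - w)) - 1‖ₑ := by
  have hd : Differentiable ℂ fun u => Complex.exp (α * dot u (z - w)) - 1 := by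
    have := differentiable_dot (z - w) 0
    simp only [sub_zero] at this
    exact (Complex.differentiable_exp.comp (this.const_mul _)).sub_const _
  have := mean_value_ball (fun u => Complex.exp (α * dot u (z - w)) - 1) hd w 2
  rwa [setLIntegral_ball_shift (fun u => ‖Complex.exp (α * dot u (z - w)) - 1‖ₑ)] at this

theorem two_point {E : ℂ} {a d : ℝ} (ha : 0 ≤ a) (hd0 : 0 ≤ d) (hd : d ≤ 1) {c : ℝ}
    (hc : c ≤ 1 / 2) (hca : c * d ≤ a / 2) :
    c * d ≤ ‖E - 1‖ + ‖E * Complex.exp a - 1‖ := by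
  by_cases hE : 1 / 2 ≤ ‖E‖
  · have h1 : ‖E * Complex.exp a - E‖ ≤ ‖E - 1‖ + ‖E * Complex.exp a - 1‖ := by
      have : E * Complex.exp a - E = -(E - 1) + (E * Complex.exp a - 1) := by ring
      rw [this]
      refine (norm_add_le _ _).trans ?_
      rw [norm_neg]
    have h2 : ‖E * Complex.exp a - E‖ = ‖E‖ * (Real.exp a - 1) := by
      have h3 : E * Complex.exp a - E = E * ((Real.exp a - 1 : ℝ) : ℂ) := by
        push_cast
        ring
      rw [h3, norm_mul, Complex.norm_real, Real.norm_eq_abs,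
        abs_of_nonneg (by linarith [Real.one_le_exp ha])]
    rw [h2] at h1
    have h4 : a ≤ Real.exp a - 1 := by linarith [Real.add_one_le_exp a]
    have h5 : a / 2 ≤ ‖E‖ * (Real.exp a - 1) := by nlinarith
    linarith
  · push Not at hE
    have h1 : 1 / 2 ≤ ‖E - 1‖ := by
      have := norm_sub_norm_le (1 : ℂ) E
      rw [norm_one, norm_sub_rev] at this
      linarith
    have h2 : 0 ≤ ‖E * Complex.exp a - 1‖ := norm_nonneg _
    nlinarith

/-- second lower bound for the local integral -/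
theorem local_ge_two {α : ℝ} (hα : 0 < α) (z w : Fin n → ℂ) (h : ‖z - w‖ ≤ 1) :
    ENNReal.ofReal (min α 1 / 2 * ‖z - w‖) * volume (ball (0 : Fin n → ℂ) 1) ≤
      2 * ∫⁻ u in ball w 2, ‖Complex.exp (α * dot u (z - w)) - 1‖ₑ := by
  set δ := z - w with hδ
  rcases (norm_nonneg δ).eq_or_lt with h0 | h0
  · rw [← h0]
    simp
  set s : Fin n → ℂ := ((‖δ‖⁻¹ : ℝ) : ℂ) • δ with hs
  have hsn : ‖s‖ = 1 := by
    rw [hs, norm_smul, Complex.norm_real, Real.norm_eq_abs, abs_of_pos (by positivity),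
      inv_mul_cancel₀ h0.ne']
  have hsd : dot s δ = ((nsq δ / ‖δ‖ : ℝ) : ℂ) := by
    have : dot s δ = ((‖δ‖⁻¹ : ℝ) : ℂ) * dot δ δ := by
      unfold dot
      rw [Finset.mul_sum]
      refine Finset.sum_congr rfl fun i _ => ?_
      rw [hs, Pi.smul_apply, smul_eq_mul]
      ring
    rw [this, dot_self, ← Complex.ofReal_mul]
    congr 1
    field_simp
  have hτ : ‖δ‖ ≤ nsq δ / ‖δ‖ := by
    rw [le_div_iff₀ h0]
    have := norm_sq_le_nsq δ
    nlinarith
  set H : (Fin n → ℂ) → ℂ := fun u => Complex.exp (α * dot u δ) - 1 with hH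
  have hpt : ∀ u, ENNReal.ofReal (min α 1 / 2 * ‖δ‖) ≤ ‖H u‖ₑ + ‖H (s + u)‖ₑ := by
    intro u
    rw [← ofReal_norm, ← ofReal_norm, ← ENNReal.ofReal_add (norm_nonneg _) (norm_nonneg _)]
    apply ENNReal.ofReal_le_ofReal
    have h1 : H (s + u) = Complex.exp (α * dot u δ) *
        Complex.exp ((α * (nsq δ / ‖δ‖) : ℝ) : ℂ) - 1 := by
      rw [hH]
      simp only
      rw [dot_add_left, hsd, ← Complex.exp_add]
      congr 2
      push_cast
      ring
    rw [h1]
    refine two_point (mul_nonneg hα.le (div_nonneg (nsq_nonneg _) (norm_nonneg _))) h0.le h ?_ ?_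
    · have := min_le_right α 1
      linarith
    · have h2 := min_le_left α 1
      have h3 : min α 1 / 2 * ‖δ‖ ≤ α / 2 * ‖δ‖ := by gcongr
      have h4 : α * ‖δ‖ ≤ α * (nsq δ / ‖δ‖) := by gcongr
      linarith
  have hsum : ENNReal.ofReal (min α 1 / 2 * ‖δ‖) * volume (ball w 1) ≤
      ∫⁻ u in ball w 1, (‖H u‖ₑ + ‖H (s + u)‖ₑ) := by
    rw [← setLIntegral_const]
    exact lintegral_mono fun u => hpt u
  have hHc : Continuous H := by
    have := continuous_dot_left δ
    rw [hH]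
    fun_prop
  rw [lintegral_add_left hHc.measurable.enorm] at hsum
  have h1 : ∫⁻ u in ball w 1, ‖H u‖ₑ ≤ ∫⁻ u in ball w 2, ‖H u‖ₑ :=
    lintegral_mono_set (ball_subset_ball (by norm_num))
  have h2 : ∫⁻ u in ball w 1, ‖H (s + u)‖ₑ ≤ ∫⁻ u in ball w 2, ‖H u‖ₑ := by
    have h3 : (fun u : Fin n → ℂ => s + u) ⁻¹' ball (s + w) 1 = ball w 1 := by
      ext u
      simp [dist_eq_norm]
    have h4 := (measurePreserving_add_left (volume : Measure (Fin n → ℂ)) s).setLIntegral_comp_preimage_emb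
      (MeasurableEquiv.addLeft s).measurableEmbedding (fun u => ‖H u‖ₑ) (ball (s + w) 1)
    rw [h3] at h4
    rw [h4]
    apply lintegral_mono_set
    intro u hu
    rw [mem_ball] at hu ⊢
    have h5 : dist (s + w) w = 1 := by rw [dist_eq_norm]; simpa using hsn
    have := dist_triangle u (s + w) w
    linarith
  have hvol : volume (ball w 1) = volume (ball (0 : Fin n → ℂ) 1) := by
    rw [volume_pi_ball _ one_pos, volume_pi_ball _ one_pos]
    simp [Complex.volume_ball]
  rw [hvol] at hsum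
  calc ENNReal.ofReal (min α 1 / 2 * ‖δ‖) * volume (ball (0 : Fin n → ℂ) 1)
      ≤ _ := hsum
    _ ≤ (∫⁻ u in ball w 2, ‖H u‖ₑ) + ∫⁻ u in ball w 2, ‖H u‖ₑ := add_le_add h1 h2
    _ = 2 * ∫⁻ u in ball w 2, ‖H u‖ₑ := by rw [two_mul]

/-- lower bounds for the induced distance -/
theorem dis_lower (n : ℕ) {α : ℝ} (hα : 0 < α) :
    ∃ c : ℝ, 0 < c ∧ ∀ z w : Fin n → ℂ,
      c * Real.exp (α * nsq w / 2) * ‖Complex.exp (α * dot w (z - w)) - 1‖ ≤ dis α z w ∧
      (‖z - w‖ ≤ 1 → c * Real.exp (α * nsq w / 2) * ‖z - w‖ ≤ dis α z w) := by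
  set κ : ℝ := (α / 2 / Real.pi) ^ n * Real.exp (-(2 * α * n)) with hκ
  have hκ0 : 0 < κ := by positivity
  set v₂ : ℝ := (Real.pi * 2 ^ 2) ^ n with hv₂
  set v₁ : ℝ := (Real.pi * 1 ^ 2) ^ n with hv₁
  have hv₂0 : 0 < v₂ := by positivity
  have hv₁0 : 0 < v₁ := by positivity
  have hmin : 0 < min α 1 := lt_min hα one_pos
  have hdis0 : ∀ z w : Fin n → ℂ, 0 ≤ dis α z w := fun z w =>
    integral_nonneg fun u => by unfold gdens; positivity
  have hA : ∀ z w : Fin n → ℂ,
      κ * v₂ * Real.exp (α * nsq w / 2) * ‖Complex.exp (α * dot w (z - w)) - 1‖ ≤ dis α z w := by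
    intro z w
    have h1 := dis_ge hα z w
    have h2 := local_ge_one α z w
    rw [volume_ball_eq n (by norm_num), ← ofReal_norm, ← ENNReal.ofReal_mul (norm_nonneg _)] at h2
    have h3 := (mul_le_mul_right h2 (ENNReal.ofReal ((α / 2 / Real.pi) ^ n *
      Real.exp (α * nsq w / 2) * Real.exp (-(2 * α * n))))).trans h1
    rw [← ENNReal.ofReal_mul (by positivity), ENNReal.ofReal_le_ofReal_iff (hdis0 z w)] at h3
    refine le_trans (le_of_eq ?_) h3
    rw [hκ, hv₂]
    ring
  have hB : ∀ z w : Fin n → ℂ, ‖z - w‖ ≤ 1 →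
      κ * v₁ * (min α 1 / 4) * Real.exp (α * nsq w / 2) * ‖z - w‖ ≤ dis α z w := by
    intro z w hzw
    have h1 := dis_ge hα z w
    have h2 := local_ge_two hα z w hzw
    rw [volume_ball_eq n one_pos, ← ENNReal.ofReal_mul (by positivity)] at h2
    set cc : ℝ := (α / 2 / Real.pi) ^ n * Real.exp (α * nsq w / 2) * Real.exp (-(2 * α * n)) with hcc
    have h3 : ENNReal.ofReal cc * ENNReal.ofReal (min α 1 / 2 * ‖z - w‖ * (Real.pi * 1 ^ 2) ^ n) ≤
        2 * ENNReal.ofReal (dis α z w) := by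
      calc ENNReal.ofReal cc * ENNReal.ofReal (min α 1 / 2 * ‖z - w‖ * (Real.pi * 1 ^ 2) ^ n)
          ≤ ENNReal.ofReal cc * (2 * ∫⁻ u in ball w 2, ‖Complex.exp (α * dot u (z - w)) - 1‖ₑ) := by
            gcongr
        _ = 2 * (ENNReal.ofReal cc * ∫⁻ u in ball w 2, ‖Complex.exp (α * dot u (z - w)) - 1‖ₑ) := by
            ring
        _ ≤ 2 * ENNReal.ofReal (dis α z w) := by gcongr
    have h4 : (2 : ℝ≥0∞) = ENNReal.ofReal 2 := by simp
    rw [h4, ← ENNReal.ofReal_mul (by positivity), ← ENNReal.ofReal_mul (by norm_num),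
      ENNReal.ofReal_le_ofReal_iff (by have := hdis0 z w; positivity)] at h3
    have h5 : κ * v₁ * (min α 1 / 4) * Real.exp (α * nsq w / 2) * ‖z - w‖ =
        cc * (min α 1 / 2 * ‖z - w‖ * (Real.pi * 1 ^ 2) ^ n) / 2 := by
      rw [hκ, hv₁, hcc]
      ring
    rw [h5]
    linarith
  refine ⟨min (κ * v₂) (κ * v₁ * (min α 1 / 4)), lt_min (by positivity) (by positivity), ?_⟩
  intro z w
  refine ⟨le_trans ?_ (hA z w), fun h => le_trans ?_ (hB z w h)⟩
  · gcongr
    exact min_le_left _ _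
  · gcongr
    exact min_le_right _ _

end Pool.Agent.V1173.Fock
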