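import Pool.Agent.V1173.Fock.Mean

/-!
# Weighted local estimates for Fock spaces

Helper file for `MP_09e892_an` and `MP_bbe01f_an`.
-/

open MeasureTheory Metric Set
open scoped ENNReal

namespace Pool.Agent.V1173.Fock

variable {n : ℕ}

/-- Euclidean norm squared -/
noncomputable def nsq (z : Fin n → ℂ) : ℝ := ∑ i, ‖z i‖ ^ 2

/-- Hermitian product `z ū` -/
noncomputable def dot (z u : Fin n → ℂ) : ℂ := ∑ i, z i * (starRingEnd ℂ) (u i)

theorem continuous_nsq : Continuous (nsq (n := n)) := by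
  unfold nsq
  fun_prop

theorem nsq_nonneg (z : Fin n → ℂ) : 0 ≤ nsq z := Finset.sum_nonneg fun _ _ => by positivity

theorem nsq_le (z : Fin n → ℂ) : nsq z ≤ n * ‖z‖ ^ 2 := by
  unfold nsq
  calc ∑ i, ‖z i‖ ^ 2 ≤ ∑ _i : Fin n, ‖z‖ ^ 2 := by
        refine Finset.sum_le_sum fun i _ => ?_
        have := norm_le_pi_norm z i
        gcongr
    _ = n * ‖z‖ ^ 2 := by simp

theorem norm_sq_le_nsq (z : Fin n → ℂ) : ‖z‖ ^ 2 ≤ nsq z := by
  have h1 : ‖z‖ ≤ Real.sqrt (nsq z) := by
    rw [pi_norm_le_iff_of_nonneg (Real.sqrt_nonneg _)]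
    intro i
    apply Real.le_sqrt_of_sq_le
    exact Finset.single_le_sum (f := fun i => ‖z i‖ ^ 2) (fun _ _ => by positivity)
      (Finset.mem_univ i)
  calc ‖z‖ ^ 2 ≤ (Real.sqrt (nsq z)) ^ 2 := by gcongr
    _ = nsq z := Real.sq_sqrt (nsq_nonneg z)

theorem nsq_add (z h : Fin n → ℂ) : nsq (z + h) = nsq z + 2 * (dot h z).re + nsq h := by
  unfold nsq dot
  rw [Complex.re_sum, Finset.mul_sum, ← Finset.sum_add_distrib, ← Finset.sum_add_distrib]
  refine Finset.sum_congr rfl fun i _ => ?_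
  rw [Pi.add_apply, ← Complex.normSq_eq_norm_sq, ← Complex.normSq_eq_norm_sq,
    ← Complex.normSq_eq_norm_sq, Complex.normSq_apply, Complex.normSq_apply,
    Complex.normSq_apply]
  simp only [Complex.add_re, Complex.add_im, Complex.mul_re, Complex.conj_re, Complex.conj_im]
  ring

theorem dot_sub_re (w z : Fin n → ℂ) :
    (dot (w - z) z).re = (nsq w - nsq z - nsq (w - z)) / 2 := by
  have := nsq_add z (w - z)
  rw [add_sub_cancel] at this
  linarith

theorem differentiable_dot (z a : Fin n → ℂ) : Differentiable ℂ fun w => dot (w - a) z := by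
  unfold dot
  simp only [Pi.sub_apply]
  fun_prop

/-- the weight -/
noncomputable def wgt (α : ℝ) (s : ℕ) (z : Fin n → ℂ) : ℝ :=
  Real.exp (-(α * nsq z / 2)) / (1 + nsq z) ^ s

theorem wgt_pos (α : ℝ) (s : ℕ) (z : Fin n → ℂ) : 0 < wgt α s z := by
  unfold wgt
  have := nsq_nonneg z
  positivity

theorem continuous_wgt (α : ℝ) (s : ℕ) : Continuous (wgt (n := n) α s) := by
  unfold wgt
  have := continuous_nsq (n := n)
  refine Continuous.div (by fun_prop) (by fun_prop) fun z => ?_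
  have := nsq_nonneg z
  positivity

/-- the weighted modulus -/
noncomputable def V (α : ℝ) (s : ℕ) (G : (Fin n → ℂ) → ℂ) (z : Fin n → ℂ) : ℝ :=
  ‖G z‖ * wgt α s z

theorem V_nonneg (α : ℝ) (s : ℕ) (G : (Fin n → ℂ) → ℂ) (z : Fin n → ℂ) : 0 ≤ V α s G z :=
  mul_nonneg (norm_nonneg _) (wgt_pos α s z).le

theorem continuous_V (α : ℝ) (s : ℕ) {G : (Fin n → ℂ) → ℂ} (hG : Continuous G) :
    Continuous (V α s G) := by
  unfold V
  have := continuous_wgt (n := n) α s
  fun_prop

/-- the local normalisation -/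
noncomputable def nrm (α : ℝ) (G : (Fin n → ℂ) → ℂ) (z w : Fin n → ℂ) : ℂ :=
  G w * Complex.exp (-(α * dot (w - z) z))

theorem norm_nrm (α : ℝ) (G : (Fin n → ℂ) → ℂ) (z w : Fin n → ℂ) :
    ‖nrm α G z w‖ = ‖G w‖ * Real.exp (-(α * nsq w / 2)) *
      (Real.exp (α * nsq z / 2) * Real.exp (α * nsq (w - z) / 2)) := by
  unfold nrm
  rw [norm_mul, Complex.norm_exp, mul_assoc, ← Real.exp_add, ← Real.exp_add]
  congr 2
  rw [Complex.neg_re, Complex.re_ofReal_mul, dot_sub_re]
  ring

theorem local_bound {p : ℝ} (hp : 0 < p) {α : ℝ} (hα : 0 < α) (s : ℕ) :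
    ∃ C : ℝ, 0 < C ∧ ∀ G : (Fin n → ℂ) → ℂ, Differentiable ℂ G → ∀ z,
      ENNReal.ofReal (V α s G z ^ p) ≤
        ENNReal.ofReal C * ∫⁻ w in ball z 1, ENNReal.ofReal (V α s G w ^ p) := by
  obtain ⟨C, hC, hsub⟩ := submean (n := n) hp
  set B : ℝ := Real.exp (α * n / 2) * (2 + 2 * n) ^ s with hB
  have hB0 : 0 < B := by positivity
  refine ⟨C * B ^ p, by positivity, fun G hG z => ?_⟩
  have hF : Differentiable ℂ (nrm α G z) := by
    unfold nrm
    have := differentiable_dot z z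
    exact hG.mul (Complex.differentiable_exp.comp ((this.const_mul _).neg))
  have h1 := hsub (nrm α G z) hF z
  have hκ := wgt_pos α s z
  have h2 : V α s G z = ‖nrm α G z z‖ * wgt α s z := by
    rw [norm_nrm]
    have : nsq (z - z) = 0 := by simp [nsq]
    rw [this]
    unfold V
    have h3 : Real.exp (-(α * nsq z / 2)) * (Real.exp (α * nsq z / 2) * Real.exp (α * 0 / 2)) = 1 := by
      rw [← Real.exp_add, ← Real.exp_add]
      simp
    rw [mul_assoc ‖G z‖, h3, mul_one]
  have h3 : ∀ w ∈ ball z 1, ‖nrm α G z w‖ ^ p * wgt α s z ^ p ≤ B ^ p * V α s G w ^ p := by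
    intro w hw
    rw [← Real.mul_rpow (norm_nonneg _) hκ.le, ← Real.mul_rpow hB0.le (V_nonneg _ _ _ _)]
    apply Real.rpow_le_rpow (by positivity) _ hp.le
    rw [norm_nrm]
    unfold V wgt
    have hw' : ‖w - z‖ < 1 := by rwa [mem_ball, dist_eq_norm] at hw
    have h4 : nsq (w - z) ≤ n := by
      refine (nsq_le _).trans ?_
      have : ‖w - z‖ ^ 2 ≤ 1 := by nlinarith [norm_nonneg (w - z)]
      calc (n : ℝ) * ‖w - z‖ ^ 2 ≤ n * 1 := by gcongr
        _ = n := mul_one _
    have h5 : 1 + nsq w ≤ (2 + 2 * n) * (1 + nsq z) := by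
      have h51 := nsq_add z (w - z)
      rw [add_sub_cancel] at h51
      have h52 := nsq_add z (-(w - z))
      have h53 : (dot (-(w - z)) z).re = -(dot (w - z) z).re := by
        have : dot (-(w - z)) z = -dot (w - z) z := by
          unfold dot
          rw [← Finset.sum_neg_distrib]
          refine Finset.sum_congr rfl fun i _ => ?_
          simp
          ring
        rw [this, Complex.neg_re]
      have h54 : nsq (-(w - z)) = nsq (w - z) := by
        simp only [nsq, Pi.neg_apply, norm_neg]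
      have h55 := nsq_nonneg (z + -(w - z))
      rw [h53, h54] at h52
      have h56 := nsq_nonneg z
      have h57 : (0 : ℝ) ≤ n := by positivity
      nlinarith [mul_nonneg h57 h56]
    have hz1 : 0 < 1 + nsq z := by have := nsq_nonneg z; linarith
    have hw1 : 0 < 1 + nsq w := by have := nsq_nonneg w; linarith
    have h6 : Real.exp (α * nsq (w - z) / 2) ≤ Real.exp (α * n / 2) := by
      rw [Real.exp_le_exp]
      gcongr
    have h7 : (1 + nsq w) ^ s ≤ (2 + 2 * n) ^ s * (1 + nsq z) ^ s := by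
      rw [← mul_pow]
      gcongr
    have h8 : 1 / (1 + nsq z) ^ s ≤ (2 + 2 * n) ^ s / (1 + nsq w) ^ s := by
      rw [div_le_div_iff₀ (by positivity) (by positivity)]
      linarith
    have h9 : Real.exp (α * nsq z / 2) * Real.exp (-(α * nsq z / 2)) = 1 := by
      rw [← Real.exp_add]
      simp
    calc ‖G w‖ * Real.exp (-(α * nsq w / 2)) * (Real.exp (α * nsq z / 2) * Real.exp (α * nsq (w - z) / 2)) *
          (Real.exp (-(α * nsq z / 2)) / (1 + nsq z) ^ s)
        = ‖G w‖ * Real.exp (-(α * nsq w / 2)) * Real.exp (α * nsq (w - z) / 2) *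
          (Real.exp (α * nsq z / 2) * Real.exp (-(α * nsq z / 2))) * (1 / (1 + nsq z) ^ s) := by
          ring
      _ ≤ ‖G w‖ * Real.exp (-(α * nsq w / 2)) * Real.exp (α * n / 2) *
          (Real.exp (α * nsq z / 2) * Real.exp (-(α * nsq z / 2))) *
          ((2 + 2 * n) ^ s / (1 + nsq w) ^ s) := by gcongr
      _ = B * (‖G w‖ * (Real.exp (-(α * nsq w / 2)) / (1 + nsq w) ^ s)) := by
          rw [h9, hB]
          ring
  calc ENNReal.ofReal (V α s G z ^ p)
      = ENNReal.ofReal (wgt α s z ^ p) * ENNReal.ofReal (‖nrm α G z z‖ ^ p) := by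
        rw [← ENNReal.ofReal_mul (by positivity), h2, Real.mul_rpow (norm_nonneg _) hκ.le, mul_comm]
    _ ≤ ENNReal.ofReal (wgt α s z ^ p) *
        (ENNReal.ofReal C * ∫⁻ w in ball z 1, ENNReal.ofReal (‖nrm α G z w‖ ^ p)) := by gcongr
    _ = ENNReal.ofReal C * ∫⁻ w in ball z 1,
        ENNReal.ofReal (wgt α s z ^ p) * ENNReal.ofReal (‖nrm α G z w‖ ^ p) := by
        rw [lintegral_const_mul' _ _ ENNReal.ofReal_ne_top]
        ring
    _ ≤ ENNReal.ofReal C * ∫⁻ w in ball z 1,
        ENNReal.ofReal (B ^ p) * ENNReal.ofReal (V α s G w ^ p) := by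
        gcongr ENNReal.ofReal C * ?_
        refine setLIntegral_mono' measurableSet_ball fun w hw => ?_
        rw [← ENNReal.ofReal_mul (by positivity), ← ENNReal.ofReal_mul (by positivity), mul_comm]
        exact ENNReal.ofReal_le_ofReal (h3 w hw)
    _ = ENNReal.ofReal (C * B ^ p) * ∫⁻ w in ball z 1, ENNReal.ofReal (V α s G w ^ p) := by
        rw [lintegral_const_mul' _ _ ENNReal.ofReal_ne_top, ENNReal.ofReal_mul hC.le, mul_assoc]

theorem lintegral_ball_avg {h : (Fin n → ℂ) → ℝ≥0∞} (hm : Measurable h) (r : ℝ) :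
    ∫⁻ z, ∫⁻ w in ball z r, h w = volume (ball (0 : Fin n → ℂ) r) * ∫⁻ z, h z := by
  calc ∫⁻ z, ∫⁻ w in ball z r, h w
      = ∫⁻ z, ∫⁻ u in ball (0 : Fin n → ℂ) r, h (z + u) := by
        refine lintegral_congr fun z => ?_
        rw [setLIntegral_ball_shift]
    _ = ∫⁻ u in ball (0 : Fin n → ℂ) r, ∫⁻ z, h (z + u) := by
        rw [lintegral_lintegral_swap]
        exact (hm.comp (measurable_fst.add measurable_snd)).aemeasurable
    _ = ∫⁻ _u in ball (0 : Fin n → ℂ) r, ∫⁻ z, h z := by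
        refine lintegral_congr fun u => ?_
        exact lintegral_add_right_eq_self h u
    _ = _ := by rw [setLIntegral_const, mul_comm]

/-- the local supremum -/
noncomputable def locSup (R : ℝ) (v : (Fin n → ℂ) → ℝ) (z : Fin n → ℂ) : ℝ :=
  sSup ((fun u => v (z + u)) '' closedBall 0 R)

theorem continuous_locSup {R : ℝ} {v : (Fin n → ℂ) → ℝ} (hv : Continuous v) :
    Continuous (locSup R v) := by
  unfold locSup
  refine (isCompact_closedBall (0 : Fin n → ℂ) R).continuous_sSup (f := fun z u => v (z + u)) ?_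
  exact hv.comp (continuous_fst.add continuous_snd)

theorem le_locSup {R : ℝ} {v : (Fin n → ℂ) → ℝ} (hv : Continuous v) {z w : Fin n → ℂ}
    (h : ‖w - z‖ ≤ R) : v w ≤ locSup R v z := by
  unfold locSup
  refine le_csSup ?_ ⟨w - z, by simpa using h, by simp⟩
  exact ((isCompact_closedBall (0 : Fin n → ℂ) R).image (by fun_prop)).bddAbove

theorem exists_locSup {R : ℝ} (hR : 0 ≤ R) {v : (Fin n → ℂ) → ℝ} (hv : Continuous v)
    (z : Fin n → ℂ) : ∃ w, ‖w - z‖ ≤ R ∧ locSup R v z = v w := by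
  obtain ⟨u, hu, h⟩ := (isCompact_closedBall (0 : Fin n → ℂ) R).exists_sSup_image_eq
    ⟨0, mem_closedBall_self hR⟩ (f := fun u => v (z + u)) (by fun_prop)
  exact ⟨z + u, by simpa using hu, h⟩

/-- `L^p` bound for the local supremum of the weighted modulus -/
theorem lintegral_locSup {p : ℝ} (hp : 0 < p) {α : ℝ} (hα : 0 < α) (s : ℕ) {R : ℝ} (hR : 0 ≤ R) :
    ∃ C : ℝ, 0 < C ∧ ∀ G : (Fin n → ℂ) → ℂ, Differentiable ℂ G →
      ∫⁻ z, ENNReal.ofReal (locSup R (V α s G) z ^ p) ≤
        ENNReal.ofReal C * ∫⁻ z, ENNReal.ofReal (V α s G z ^ p) := by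
  obtain ⟨C, hC, h⟩ := local_bound (n := n) hp hα s
  refine ⟨C * (Real.pi * (R + 1) ^ 2) ^ n, by positivity, fun G hG => ?_⟩
  have hVc := continuous_V α s hG.continuous
  have hm : Measurable fun w => ENNReal.ofReal (V α s G w ^ p) := by
    have : Continuous fun w => V α s G w ^ p := hVc.rpow_const fun _ => Or.inr hp.le
    exact this.measurable.ennreal_ofReal
  calc ∫⁻ z, ENNReal.ofReal (locSup R (V α s G) z ^ p)
      ≤ ∫⁻ z, ENNReal.ofReal C * ∫⁻ w in ball z (R + 1), ENNReal.ofReal (V α s G w ^ p) := by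
        refine lintegral_mono fun z => ?_
        obtain ⟨w, hw, hww⟩ := exists_locSup hR hVc z
        rw [hww]
        refine (h G hG w).trans ?_
        gcongr
        intro x hx
        rw [mem_ball] at hx ⊢
        have := dist_triangle x w z
        rw [dist_eq_norm w z] at this
        linarith
    _ = ENNReal.ofReal C * (volume (ball (0 : Fin n → ℂ) (R + 1)) *
        ∫⁻ z, ENNReal.ofReal (V α s G z ^ p)) := by
        rw [lintegral_const_mul' _ _ ENNReal.ofReal_ne_top, lintegral_ball_avg hm]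
    _ = _ := by
        rw [volume_ball_eq n (by linarith), ← mul_assoc, ← ENNReal.ofReal_mul hC.le]

theorem memLp_iff {p : ℝ≥0∞} (hp0 : p ≠ 0) (hptop : p ≠ ∞) {v : (Fin n → ℂ) → ℝ}
    (hv : Continuous v) (hv0 : ∀ z, 0 ≤ v z) :
    MemLp v p volume ↔ ∫⁻ z, ENNReal.ofReal (v z ^ p.toReal) < ∞ := by
  have h1 : ∀ z, ‖v z‖ₑ ^ p.toReal = ENNReal.ofReal (v z ^ p.toReal) := by
    intro z
    rw [Real.enorm_eq_ofReal (hv0 z), ENNReal.ofReal_rpow_of_nonneg (hv0 z) ENNReal.toReal_nonneg]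
  constructor
  · intro h
    have h2 := (eLpNorm_lt_top_iff_lintegral_rpow_enorm_lt_top hp0 hptop).mp h.2
    simpa only [h1] using h2
  · intro h
    refine ⟨hv.aestronglyMeasurable, ?_⟩
    rw [eLpNorm_lt_top_iff_lintegral_rpow_enorm_lt_top hp0 hptop]
    simpa only [h1] using h

/-- a pointwise bound from an essential bound -/
theorem bound_of_memLp_top {α : ℝ} (hα : 0 < α) (s : ℕ) {G : (Fin n → ℂ) → ℂ}
    (hG : Differentiable ℂ G) (h : MemLp (V α s G) ∞ volume) : ∃ M : ℝ, ∀ z, V α s G z ≤ M := by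
  obtain ⟨C, hC, hb⟩ := local_bound (n := n) one_pos hα s
  have h1 : eLpNormEssSup (V α s G) volume < ∞ := by
    have := h.2
    rwa [eLpNorm_exponent_top] at this
  set E := eLpNormEssSup (V α s G) volume with hE
  have hae : ∀ᵐ w ∂(volume : Measure (Fin n → ℂ)), ENNReal.ofReal (V α s G w) ≤ E := by
    filter_upwards [ae_le_eLpNormEssSup (f := V α s G) (μ := volume)] with w hw
    rwa [Real.enorm_eq_ofReal (V_nonneg _ _ _ _)] at hw
  refine ⟨(ENNReal.ofReal C * (E * volume (ball (0 : Fin n → ℂ) 1))).toReal, fun z => ?_⟩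
  have h2 := hb G hG z
  simp only [Real.rpow_one] at h2
  have h3 : ∫⁻ w in ball z 1, ENNReal.ofReal (V α s G w) ≤ E * volume (ball (0 : Fin n → ℂ) 1) := by
    calc ∫⁻ w in ball z 1, ENNReal.ofReal (V α s G w) ≤ ∫⁻ _w in ball z 1, E :=
          lintegral_mono_ae (ae_restrict_of_ae hae)
      _ = E * volume (ball (0 : Fin n → ℂ) 1) := by
        rw [setLIntegral_const, volume_pi_ball _ one_pos, volume_pi_ball _ one_pos]
        simp [Complex.volume_ball]
  have h4 : ENNReal.ofReal (V α s G z) ≤ ENNReal.ofReal C * (E * volume (ball (0 : Fin n → ℂ) 1)) :=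
    h2.trans (by gcongr)
  have hfin : ENNReal.ofReal C * (E * volume (ball (0 : Fin n → ℂ) 1)) ≠ ∞ := by
    refine ENNReal.mul_ne_top ENNReal.ofReal_ne_top (ENNReal.mul_ne_top h1.ne ?_)
    exact measure_ball_lt_top.ne
  exact (ENNReal.ofReal_le_iff_le_toReal hfin).mp h4

end Pool.Agent.V1173.Fock
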