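import Mathlib

/-!
# Mean value inequalities on `ℂⁿ`

Helper file for `MP_09e892_an` and `MP_bbe01f_an`.
-/

open MeasureTheory Metric Set
open scoped ENNReal

namespace Pool.Agent.V1173.Fock

variable {n : ℕ}

/-- rotations preserve the volume -/
theorem mp_rot (n : ℕ) (θ : ℝ) :
    MeasurePreserving (fun u : Fin n → ℂ => Complex.exp (θ * Complex.I) • u) volume volume := by
  have h : MeasurePreserving (fun z : ℂ => Complex.exp (θ * Complex.I) * z)
      (volume : Measure ℂ) (volume : Measure ℂ) := by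
    have h1 := (rotation (Circle.exp θ)).measurePreserving
    have h2 : (⇑(rotation (Circle.exp θ)) : ℂ → ℂ) = fun z => Complex.exp (θ * Complex.I) * z := by
      funext z
      rw [rotation_apply, Circle.coe_exp]
    rw [h2] at h1
    exact h1
  exact volume_preserving_pi (fun _ => h)

theorem norm_exp_smul (θ : ℝ) (u : Fin n → ℂ) : ‖Complex.exp (θ * Complex.I) • u‖ = ‖u‖ := by
  rw [norm_smul, Complex.norm_exp_ofReal_mul_I, one_mul]

/-- the mean value inequality over the polydisc -/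
theorem mean_value_ball (F : (Fin n → ℂ) → ℂ) (hF : Differentiable ℂ F) (z : Fin n → ℂ) (r : ℝ) :
    ‖F z‖ₑ * volume (ball (0 : Fin n → ℂ) r) ≤
      ∫⁻ u in ball (0 : Fin n → ℂ) r, ‖F (z + u)‖ₑ := by
  have hc : Continuous F := hF.continuous
  -- pointwise
  have h1 : ∀ u : Fin n → ℂ, ‖F z‖ₑ ≤ ENNReal.ofReal ((2 * Real.pi)⁻¹) *
      ∫⁻ θ in Ioc 0 (2 * Real.pi), ‖F (z + Complex.exp ((θ : ℝ) * Complex.I) • u)‖ₑ := by
    intro u
    have hdiff : Differentiable ℂ (fun l : ℂ => F (z + l • u)) := by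
      apply hF.comp
      fun_prop
    have h2 := DiffContOnCl.circleAverage (f := fun l : ℂ => F (z + l • u)) (c := 0) (R := 1)
      hdiff.diffContOnCl
    simp only [zero_smul, add_zero] at h2
    have h3 : F z = (2 * Real.pi)⁻¹ • ∫ θ in (0 : ℝ)..(2 * Real.pi),
        F (z + Complex.exp ((θ : ℝ) * Complex.I) • u) := by
      rw [← h2, Real.circleAverage_def]
      simp only [circleMap, zero_add, Complex.ofReal_one, one_mul]
    calc ‖F z‖ₑ = ‖(2 * Real.pi)⁻¹ • ∫ θ in (0 : ℝ)..(2 * Real.pi),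
        F (z + Complex.exp ((θ : ℝ) * Complex.I) • u)‖ₑ := by rw [← h3]
      _ = ENNReal.ofReal ((2 * Real.pi)⁻¹) * ‖∫ θ in Ioc 0 (2 * Real.pi),
        F (z + Complex.exp ((θ : ℝ) * Complex.I) • u)‖ₑ := by
          rw [enorm_smul, intervalIntegral.integral_of_le (by positivity),
            Real.enorm_eq_ofReal (by positivity)]
      _ ≤ _ := by
          gcongr
          exact enorm_integral_le_lintegral_enorm _
  have hmeas : Measurable (fun q : (Fin n → ℂ) × ℝ =>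
      ‖F (z + Complex.exp ((q.2 : ℝ) * Complex.I) • q.1)‖ₑ) := by
    have : Continuous (fun q : (Fin n → ℂ) × ℝ =>
      F (z + Complex.exp ((q.2 : ℝ) * Complex.I) • q.1)) := by fun_prop
    exact this.measurable.enorm
  calc ‖F z‖ₑ * volume (ball (0 : Fin n → ℂ) r)
      = ∫⁻ _u in ball (0 : Fin n → ℂ) r, ‖F z‖ₑ := by rw [setLIntegral_const]
    _ ≤ ∫⁻ u in ball (0 : Fin n → ℂ) r, ENNReal.ofReal ((2 * Real.pi)⁻¹) *
      ∫⁻ θ in Ioc 0 (2 * Real.pi), ‖F (z + Complex.exp ((θ : ℝ) * Complex.I) • u)‖ₑ :=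
        lintegral_mono fun u => h1 u
    _ = ENNReal.ofReal ((2 * Real.pi)⁻¹) * ∫⁻ u in ball (0 : Fin n → ℂ) r,
      ∫⁻ θ in Ioc 0 (2 * Real.pi), ‖F (z + Complex.exp ((θ : ℝ) * Complex.I) • u)‖ₑ := by
        rw [lintegral_const_mul']
        exact ENNReal.ofReal_ne_top
    _ = ENNReal.ofReal ((2 * Real.pi)⁻¹) * ∫⁻ θ in Ioc 0 (2 * Real.pi),
      ∫⁻ u in ball (0 : Fin n → ℂ) r, ‖F (z + Complex.exp ((θ : ℝ) * Complex.I) • u)‖ₑ := by
        rw [lintegral_lintegral_swap hmeas.aemeasurable]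
    _ = ENNReal.ofReal ((2 * Real.pi)⁻¹) * ∫⁻ _θ in Ioc 0 (2 * Real.pi),
      ∫⁻ u in ball (0 : Fin n → ℂ) r, ‖F (z + u)‖ₑ := by
        congr 1
        refine lintegral_congr fun θ => ?_
        have hpre : (fun u : Fin n → ℂ => Complex.exp (θ * Complex.I) • u) ⁻¹'
            ball (0 : Fin n → ℂ) r = ball (0 : Fin n → ℂ) r := by
          ext u
          simp only [mem_preimage, mem_ball_zero_iff, norm_exp_smul]
        have h5 := (mp_rot n θ).setLIntegral_comp_preimage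
          (measurableSet_ball (x := (0 : Fin n → ℂ)) (ε := r))
          (f := fun u => ‖F (z + u)‖ₑ) (by
            have : Continuous (fun u : Fin n → ℂ => F (z + u)) := by fun_prop
            exact this.measurable.enorm)
        rw [hpre] at h5
        exact h5
    _ = ∫⁻ u in ball (0 : Fin n → ℂ) r, ‖F (z + u)‖ₑ := by
        rw [setLIntegral_const, Real.volume_Ioc, sub_zero, mul_comm _ (ENNReal.ofReal (2 * Real.pi)),
          ← mul_assoc, ← ENNReal.ofReal_mul (by positivity),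
          inv_mul_cancel₀ (by positivity), ENNReal.ofReal_one, one_mul]

theorem volume_ball_eq (n : ℕ) {r : ℝ} (hr : 0 < r) :
    volume (ball (0 : Fin n → ℂ) r) = ENNReal.ofReal ((Real.pi * r ^ 2) ^ n) := by
  rw [MeasureTheory.volume_pi_ball _ hr]
  simp only [Complex.volume_ball, Finset.prod_const, Finset.card_univ, Fintype.card_fin]
  rw [ENNReal.ofReal_pow (by positivity)]
  congr 1
  rw [ENNReal.ofReal_mul Real.pi_pos.le, ENNReal.ofReal_pow hr.le, mul_comm]
  congr 1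
  rw [← NNReal.coe_real_pi, ENNReal.ofReal_coe_nnreal]

theorem setLIntegral_ball_shift (f : (Fin n → ℂ) → ℝ≥0∞) (z : Fin n → ℂ) (r : ℝ) :
    ∫⁻ u in ball (0 : Fin n → ℂ) r, f (z + u) = ∫⁻ w in ball z r, f w := by
  have h1 : (fun u : Fin n → ℂ => z + u) ⁻¹' ball z r = ball 0 r := by
    ext u
    simp
  have h2 := (measurePreserving_add_left (volume : Measure (Fin n → ℂ)) z).setLIntegral_comp_preimage_emb
    (MeasurableEquiv.addLeft z).measurableEmbedding f (ball z r)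
  rw [h1] at h2
  exact h2

/-- sub-mean value inequality for `|F|^p`, `0 < p ≤ 1` -/
theorem submean_le_one {p : ℝ} (hp : 0 < p) (hp1 : p ≤ 1) :
    ∃ C : ℝ, 0 < C ∧ ∀ F : (Fin n → ℂ) → ℂ, Differentiable ℂ F → ∀ z,
      ENNReal.ofReal (‖F z‖ ^ p) ≤
        ENNReal.ofReal C * ∫⁻ w in ball z 1, ENNReal.ofReal (‖F w‖ ^ p) := by
  refine ⟨(4 / Real.pi) ^ n * ((4 : ℝ) ^ n) ^ ((1 - p) / p), by positivity, ?_⟩
  intro F hF z
  have hc : Continuous F := hF.continuous
  -- the maximum point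
  set φ : (Fin n → ℂ) → ℝ := fun w => (1 - dist w z) ^ (2 * n) * ‖F w‖ ^ p with hφ
  have hφc : Continuous φ := by
    rw [hφ]
    have : Continuous fun w => ‖F w‖ ^ p := hc.norm.rpow_const fun _ => Or.inr hp.le
    fun_prop
  obtain ⟨w₀, hw₀, hmax⟩ := (isCompact_closedBall z (1 : ℝ)).exists_isMaxOn
    ⟨z, mem_closedBall_self zero_le_one⟩ hφc.continuousOn
  have hmax' : ∀ w ∈ closedBall z 1, φ w ≤ φ w₀ := fun w hw => hmax hw
  have hz : ‖F z‖ ^ p ≤ φ w₀ := by
    have := hmax' z (mem_closedBall_self zero_le_one)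
    simpa [hφ] using this
  have hw₀' : dist w₀ z ≤ 1 := hw₀
  set δ : ℝ := 1 - dist w₀ z with hδ
  have hδ0 : 0 ≤ δ := by linarith
  set a : ℝ := ‖F w₀‖ with ha
  by_cases hzero : φ w₀ ≤ 0
  · have : ‖F z‖ ^ p ≤ 0 := hz.trans hzero
    rw [ENNReal.ofReal_of_nonpos this]
    exact bot_le
  push Not at hzero
  have hφw : φ w₀ = δ ^ (2 * n) * a ^ p := rfl
  have ha0 : 0 < a := by
    rcases (norm_nonneg (F w₀)).eq_or_lt with h | h
    · exfalso
      rw [hφw, ha, ← h, Real.zero_rpow hp.ne', mul_zero] at hzero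
      exact lt_irrefl _ hzero
    · exact h
  rcases Nat.eq_zero_or_pos n with hn | hn
  · -- trivial case n = 0
    subst hn
    have hsub : ∀ w : Fin 0 → ℂ, w = z := fun w => Subsingleton.elim _ _
    have h1 : ∫⁻ w in ball z 1, ENNReal.ofReal (‖F w‖ ^ p) = ENNReal.ofReal (‖F z‖ ^ p) := by
      have h2 : ∀ w, ENNReal.ofReal (‖F w‖ ^ p) = ENNReal.ofReal (‖F z‖ ^ p) := by
        intro w
        rw [hsub w]
      simp only [h2]
      rw [setLIntegral_const]
      have h3 : volume (ball z 1) = 1 := by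
        have := volume_ball_eq 0 (r := 1) one_pos
        rw [hsub 0] at this
        rw [this]
        simp
      rw [h3, mul_one]
    rw [h1]
    simp
  have hδpos : 0 < δ := by
    rcases hδ0.eq_or_lt with h | h
    · exfalso
      rw [hφw, ← h, zero_pow (by omega), zero_mul] at hzero
      exact lt_irrefl _ hzero
    · exact h
  -- bound on the small ball
  have hball : ∀ w ∈ ball w₀ (δ / 2), w ∈ ball z 1 ∧ ‖F w‖ ^ p ≤ 4 ^ n * a ^ p := by
    intro w hw
    have hw' : dist w w₀ < δ / 2 := hw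
    have h1 : dist w z ≤ dist w w₀ + dist w₀ z := dist_triangle _ _ _
    have h2 : δ / 2 ≤ 1 - dist w z := by linarith
    have h3 : w ∈ closedBall z 1 := by
      rw [mem_closedBall]
      linarith
    refine ⟨by rw [mem_ball]; linarith, ?_⟩
    have h4 := hmax' w h3
    rw [hφw] at h4
    have h5 : (δ / 2) ^ (2 * n) * ‖F w‖ ^ p ≤ δ ^ (2 * n) * a ^ p := by
      refine le_trans ?_ h4
      rw [hφ]
      simp only
      gcongr
    have h6 : (δ / 2) ^ (2 * n) = δ ^ (2 * n) / 4 ^ n := by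
      rw [div_pow, pow_mul 2 2 n]
      norm_num
    rw [h6, div_mul_eq_mul_div, div_le_iff₀ (by positivity)] at h5
    have h7 : 0 < δ ^ (2 * n) := by positivity
    have h8 : δ ^ (2 * n) * ‖F w‖ ^ p ≤ δ ^ (2 * n) * (4 ^ n * a ^ p) := by linarith
    exact le_of_mul_le_mul_left h8 h7
  set K : ℝ := ((4 : ℝ) ^ n) ^ ((1 - p) / p) * a ^ (1 - p) with hK
  have hK0 : 0 ≤ K := by positivity
  have hFle : ∀ w ∈ ball w₀ (δ / 2), ‖F w‖ ≤ K * ‖F w‖ ^ p := by
    intro w hw
    have h1 := (hball w hw).2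
    rcases (norm_nonneg (F w)).eq_or_lt with h | h
    · rw [← h]
      positivity
    have h2 : ‖F w‖ ^ (1 - p) = (‖F w‖ ^ p) ^ ((1 - p) / p) := by
      rw [← Real.rpow_mul (norm_nonneg _)]
      congr 1
      field_simp
    have h3 : ‖F w‖ ^ (1 - p) ≤ K := by
      rw [h2]
      have he : 0 ≤ (1 - p) / p := div_nonneg (by linarith) hp.le
      calc (‖F w‖ ^ p) ^ ((1 - p) / p) ≤ (4 ^ n * a ^ p) ^ ((1 - p) / p) :=
            Real.rpow_le_rpow (by positivity) h1 he
        _ = K := by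
          rw [Real.mul_rpow (by positivity) (by positivity), ← Real.rpow_mul ha0.le, hK]
          congr 2
          field_simp
    calc ‖F w‖ = ‖F w‖ ^ (1 - p) * ‖F w‖ ^ p := by
          rw [← Real.rpow_add h]
          simp
      _ ≤ K * ‖F w‖ ^ p := by gcongr
  have hmv := mean_value_ball F hF w₀ (δ / 2)
  rw [setLIntegral_ball_shift (fun w => ‖F w‖ₑ), volume_ball_eq n (by positivity)] at hmv
  have hint : ∫⁻ w in ball w₀ (δ / 2), ‖F w‖ₑ ≤
      ENNReal.ofReal K * ∫⁻ w in ball z 1, ENNReal.ofReal (‖F w‖ ^ p) := by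
    calc ∫⁻ w in ball w₀ (δ / 2), ‖F w‖ₑ
        ≤ ∫⁻ w in ball w₀ (δ / 2), ENNReal.ofReal K * ENNReal.ofReal (‖F w‖ ^ p) := by
          refine setLIntegral_mono' measurableSet_ball fun w hw => ?_
          rw [← ENNReal.ofReal_mul hK0, ← ofReal_norm]
          exact ENNReal.ofReal_le_ofReal (hFle w hw)
      _ = ENNReal.ofReal K * ∫⁻ w in ball w₀ (δ / 2), ENNReal.ofReal (‖F w‖ ^ p) := by
          rw [lintegral_const_mul' _ _ ENNReal.ofReal_ne_top]
      _ ≤ _ := by
          gcongr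
          exact fun w hw => (hball w hw).1
  have hmain : ENNReal.ofReal (a * (Real.pi * (δ / 2) ^ 2) ^ n) ≤
      ENNReal.ofReal K * ∫⁻ w in ball z 1, ENNReal.ofReal (‖F w‖ ^ p) := by
    rw [ENNReal.ofReal_mul ha0.le]
    rw [← ofReal_norm] at hmv
    exact hmv.trans hint
  have hfin : ‖F z‖ ^ p ≤ ((4 / Real.pi) ^ n * a ^ (p - 1)) * (a * (Real.pi * (δ / 2) ^ 2) ^ n) := by
    refine hz.trans (le_of_eq ?_)
    rw [hφw]
    have h1 : a ^ (p - 1) * a = a ^ p := by
      nth_rewrite 2 [← Real.rpow_one a]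
      rw [← Real.rpow_add ha0]
      congr 1
      ring
    have h2 : (4 / Real.pi) ^ n * (Real.pi * (δ / 2) ^ 2) ^ n = δ ^ (2 * n) := by
      rw [← mul_pow, pow_mul]
      congr 1
      field_simp
      ring
    rw [← h1, ← h2]
    ring
  calc ENNReal.ofReal (‖F z‖ ^ p)
      ≤ ENNReal.ofReal (((4 / Real.pi) ^ n * a ^ (p - 1)) * (a * (Real.pi * (δ / 2) ^ 2) ^ n)) :=
        ENNReal.ofReal_le_ofReal hfin
    _ = ENNReal.ofReal ((4 / Real.pi) ^ n * a ^ (p - 1)) *
        ENNReal.ofReal (a * (Real.pi * (δ / 2) ^ 2) ^ n) := ENNReal.ofReal_mul (by positivity)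
    _ ≤ ENNReal.ofReal ((4 / Real.pi) ^ n * a ^ (p - 1)) *
        (ENNReal.ofReal K * ∫⁻ w in ball z 1, ENNReal.ofReal (‖F w‖ ^ p)) := by gcongr
    _ = ENNReal.ofReal ((4 / Real.pi) ^ n * ((4 : ℝ) ^ n) ^ ((1 - p) / p)) *
        ∫⁻ w in ball z 1, ENNReal.ofReal (‖F w‖ ^ p) := by
        rw [← mul_assoc, ← ENNReal.ofReal_mul (by positivity)]
        congr 2
        rw [hK]
        have h1 : a ^ (p - 1) * a ^ (1 - p) = 1 := by
          rw [← Real.rpow_add ha0]
          simp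
        calc (4 / Real.pi) ^ n * a ^ (p - 1) * (((4 : ℝ) ^ n) ^ ((1 - p) / p) * a ^ (1 - p))
            = (4 / Real.pi) ^ n * ((4 : ℝ) ^ n) ^ ((1 - p) / p) * (a ^ (p - 1) * a ^ (1 - p)) := by
              ring
          _ = _ := by rw [h1, mul_one]

/-- sub-mean value inequality for `|F|^p`, `0 < p` -/
theorem submean {p : ℝ} (hp : 0 < p) :
    ∃ C : ℝ, 0 < C ∧ ∀ F : (Fin n → ℂ) → ℂ, Differentiable ℂ F → ∀ z,
      ENNReal.ofReal (‖F z‖ ^ p) ≤
        ENNReal.ofReal C * ∫⁻ w in ball z 1, ENNReal.ofReal (‖F w‖ ^ p) := by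
  set m : ℕ := ⌈p⌉₊ with hm
  have hm0 : 0 < m := Nat.ceil_pos.mpr hp
  have hmr : (0 : ℝ) < m := by exact_mod_cast hm0
  have hpm : p ≤ m := Nat.le_ceil p
  obtain ⟨C, hC, h⟩ := submean_le_one (n := n) (p := p / m) (by positivity)
    ((div_le_one hmr).mpr hpm)
  refine ⟨C, hC, fun F hF z => ?_⟩
  have key : ∀ w, ‖(F w) ^ m‖ ^ (p / m) = ‖F w‖ ^ p := by
    intro w
    rw [norm_pow, ← Real.rpow_natCast, ← Real.rpow_mul (norm_nonneg _)]
    congr 1
    field_simp
  have := h (fun w => (F w) ^ m) (hF.pow m) z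
  simp only [key] at this
  exact this

end Pool.Agent.V1173.Fock
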