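import Pool.Agent.V1173.Fock.Local

/-!
# Radial derivatives and Fock spaces

Helper file for `MP_bbe01f_an`.
-/

open MeasureTheory Metric Set
open scoped ENNReal

namespace Pool.Agent.V1173.Fock

variable {n : ℕ}

theorem one_add_nsq_le {z w : Fin n → ℂ} (h : ‖w - z‖ ≤ 1) :
    1 + nsq w ≤ (2 + 2 * n) * (1 + nsq z) := by
  have h4 : nsq (w - z) ≤ n := by
    refine (nsq_le _).trans ?_
    have : ‖w - z‖ ^ 2 ≤ 1 := by nlinarith [norm_nonneg (w - z)]
    calc (n : ℝ) * ‖w - z‖ ^ 2 ≤ n * 1 := by gcongr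
      _ = n := mul_one _
  have h51 := nsq_add z (w - z)
  rw [add_sub_cancel] at h51
  have h52 := nsq_add z (-(w - z))
  have h53 : (dot (-(w - z)) z).re = -(dot (w - z) z).re := by
    have : dot (-(w - z)) z = -dot (w - z) z := by
      unfold dot
      rw [← Finset.sum_neg_distrib]
      refine Finset.sum_congr rfl fun i _ => ?_
      simp
      ring
    rw [this, Complex.neg_re]
  have h54 : nsq (-(w - z)) = nsq (w - z) := by
    simp only [nsq, Pi.neg_apply, norm_neg]
  have h55 := nsq_nonneg (z + -(w - z))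
  rw [h53, h54] at h52
  have h56 := nsq_nonneg z
  have h57 : (0 : ℝ) ≤ n := by positivity
  nlinarith [mul_nonneg h57 h56]

/-- `MemLp` from a pointwise bound by the local supremum -/
theorem memLp_of_le_locSup {p : ℝ≥0∞} (hp : p ≠ 0) {α : ℝ} (hα : 0 < α) (s : ℕ)
    {G : (Fin n → ℂ) → ℂ} (hG : Differentiable ℂ G) (hmem : MemLp (V α s G) p volume)
    : MemLp (locSup 1 (V α s G)) p volume := by
  have hc := continuous_V α s hG.continuous
  have hlc : Continuous (locSup 1 (V α s G)) := continuous_locSup hc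
  have hln : ∀ z, 0 ≤ locSup 1 (V α s G) z := fun z =>
    (V_nonneg α s G z).trans (le_locSup hc (by simp))
  by_cases hptop : p = ∞
  · subst hptop
    obtain ⟨M, hM⟩ := bound_of_memLp_top hα s hG hmem
    refine memLp_top_of_bound hlc.aestronglyMeasurable M (Filter.Eventually.of_forall fun z => ?_)
    rw [Real.norm_eq_abs, abs_of_nonneg (hln z)]
    obtain ⟨w, -, hw⟩ := exists_locSup (by norm_num : (0 : ℝ) ≤ 1) hc z
    rw [hw]
    exact hM w
  · have hp' : 0 < p.toReal := ENNReal.toReal_pos hp hptop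
    rw [memLp_iff hp hptop hlc hln]
    rw [memLp_iff hp hptop hc (V_nonneg α s G)] at hmem
    obtain ⟨C, hC, h⟩ := lintegral_locSup (n := n) hp' hα s (by norm_num : (0 : ℝ) ≤ 1)
    exact (h G hG).trans_lt (ENNReal.mul_lt_top ENNReal.ofReal_lt_top hmem)

/-- the directional Cauchy estimate -/
theorem fderiv_apply_le (F : (Fin n → ℂ) → ℂ) (hF : Differentiable ℂ F) (z v : Fin n → ℂ)
    (M : ℝ) (hM : ∀ w, ‖w - z‖ ≤ 1 → ‖F w‖ ≤ M) : ‖fderiv ℂ F z v‖ ≤ M * ‖v‖ := by
  rcases (norm_nonneg v).eq_or_lt with h0 | h0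
  · have : v = 0 := by rw [← norm_eq_zero, ← h0]
    rw [this]
    simp
  set s : Fin n → ℂ := ((‖v‖⁻¹ : ℝ) : ℂ) • v with hs
  have hsn : ‖s‖ = 1 := by
    rw [hs, norm_smul, Complex.norm_real, Real.norm_eq_abs, abs_of_pos (by positivity),
      inv_mul_cancel₀ h0.ne']
  have hvs : v = ((‖v‖ : ℝ) : ℂ) • s := by
    rw [hs, smul_smul, ← Complex.ofReal_mul, mul_inv_cancel₀ h0.ne']
    simp
  have hd : HasDerivAt (fun l : ℂ => F (z + l • s)) (fderiv ℂ F z s) 0 := by
    have h1 : HasFDerivAt F (fderiv ℂ F z) (z + (0 : ℂ) • s) := by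
      simpa using (hF z).hasFDerivAt
    have h2 : HasDerivAt (fun l : ℂ => z + l • s) s 0 := by
      have := ((hasDerivAt_id (0 : ℂ)).smul_const s).const_add z
      simpa using this
    exact h1.comp_hasDerivAt 0 h2
  have hdiff : Differentiable ℂ (fun l : ℂ => F (z + l • s)) := by
    apply hF.comp
    fun_prop
  have hb : ‖deriv (fun l : ℂ => F (z + l • s)) 0‖ ≤ M / 1 := by
    refine Complex.norm_deriv_le_of_forall_mem_sphere_norm_le one_pos hdiff.diffContOnCl ?_
    intro l hl
    apply hM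
    rw [add_sub_cancel_left, norm_smul, hsn, mul_one]
    simpa using hl.le
  rw [hd.deriv, div_one] at hb
  rw [hvs, map_smul, norm_smul, Complex.norm_real, Real.norm_eq_abs, abs_norm, norm_smul,
    Complex.norm_real, Real.norm_eq_abs, abs_norm, hsn, mul_one, mul_comm]
  gcongr

/-- the radial derivative -/
noncomputable def rad (f : (Fin n → ℂ) → ℂ) (z : Fin n → ℂ) : ℂ := fderiv ℂ f z z

/-- easy direction: pointwise bound -/
theorem V_rad_le {α : ℝ} (hα : 0 < α) (s : ℕ) :
    ∃ C : ℝ, 0 < C ∧ ∀ h : (Fin n → ℂ) → ℂ, Differentiable ℂ h → ∀ z,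
      V α (s + 1) (rad h) z ≤ C * locSup 1 (V α s h) z := by
  refine ⟨(1 + α) * ((2 + 2 * n) ^ s * Real.exp (α * n / 2)), by positivity, fun h hh z => ?_⟩
  set F := nrm α h z with hF
  have hFd : Differentiable ℂ F := by
    rw [hF]
    unfold nrm
    have := differentiable_dot z z
    exact hh.mul (Complex.differentiable_exp.comp ((this.const_mul _).neg))
  have hc := continuous_V α s hh.continuous
  set L := locSup 1 (V α s h) z with hL
  have hL0 : 0 ≤ L := (V_nonneg α s h z).trans (le_locSup hc (by simp))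
  set M : ℝ := L * ((2 + 2 * n) ^ s * (1 + nsq z) ^ s) *
    (Real.exp (α * nsq z / 2) * Real.exp (α * n / 2)) with hM
  have hz0 := nsq_nonneg z
  have hM0 : 0 ≤ M := by positivity
  have hFM : ∀ w, ‖w - z‖ ≤ 1 → ‖F w‖ ≤ M := by
    intro w hw
    rw [hF, norm_nrm]
    have hw0 := nsq_nonneg w
    have h1 : ‖h w‖ * Real.exp (-(α * nsq w / 2)) = V α s h w * (1 + nsq w) ^ s := by
      unfold V wgt
      field_simp
    have h2 : V α s h w ≤ L := le_locSup hc hw
    have h3 : (1 + nsq w) ^ s ≤ (2 + 2 * n) ^ s * (1 + nsq z) ^ s := by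
      rw [← mul_pow]
      have := one_add_nsq_le hw
      gcongr
    have h4 : nsq (w - z) ≤ n := by
      refine (nsq_le _).trans ?_
      have : ‖w - z‖ ^ 2 ≤ 1 := by nlinarith [norm_nonneg (w - z)]
      calc (n : ℝ) * ‖w - z‖ ^ 2 ≤ n * 1 := by gcongr
        _ = n := mul_one _
    have h5 := V_nonneg α s h w
    rw [h1, hM]
    gcongr
  have hFz : ‖F z‖ ≤ M := hFM z (by simp)
  -- the derivative of `h` at `z`
  have hder : rad h z = fderiv ℂ F z z + α * nsq z * F z := by
    unfold rad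
    have hexp : h = fun w => F w * Complex.exp (α * dot (w - z) z) := by
      funext w
      rw [hF]
      unfold nrm
      rw [mul_assoc, ← Complex.exp_add]
      simp
    have hdot : HasFDerivAt (fun w => dot (w - z) z) (∑ i, (starRingEnd ℂ) (z i) •
        (ContinuousLinearMap.proj i : (Fin n → ℂ) →L[ℂ] ℂ)) z := by
      unfold dot
      refine HasFDerivAt.fun_sum fun i _ => ?_
      have h1 : HasFDerivAt (fun w : Fin n → ℂ => (w - z) i)
          (ContinuousLinearMap.proj i : (Fin n → ℂ) →L[ℂ] ℂ) z := by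
        simp only [Pi.sub_apply]
        exact ((ContinuousLinearMap.proj i : (Fin n → ℂ) →L[ℂ] ℂ).hasFDerivAt).sub_const _
      exact h1.mul_const _
    have h2 := (hFd z).hasFDerivAt.mul ((hdot.const_mul (α : ℂ)).cexp)
    have h3 := (h2.congr_of_eventuallyEq (f₁ := h)
      (Filter.Eventually.of_forall fun w => congrFun hexp w)).fderiv
    rw [h3]
    have h4 : dot (z - z) z = 0 := by simp [dot]
    have h5 : (∑ i, (starRingEnd ℂ) (z i) •
        (ContinuousLinearMap.proj i : (Fin n → ℂ) →L[ℂ] ℂ)) z = (nsq z : ℂ) := by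
      rw [_root_.sum_apply]
      unfold nsq
      push_cast
      refine Finset.sum_congr rfl fun i _ => ?_
      change (starRingEnd ℂ) (z i) * z i = _
      rw [mul_comm, Complex.mul_conj, Complex.normSq_eq_norm_sq]
      push_cast
      rfl
    simp only [_root_.add_apply, _root_.smul_apply, smul_eq_mul, h4, h5, mul_zero,
      Complex.exp_zero, one_mul]
    ring
  have h1 : ‖rad h z‖ ≤ (1 + α) * (1 + nsq z) * M := by
    rw [hder]
    have h11 := fderiv_apply_le F hFd z z M hFM
    have h12 : ‖z‖ ≤ 1 + nsq z := by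
      have := norm_sq_le_nsq z
      nlinarith [sq_nonneg (‖z‖ - 1), norm_nonneg z]
    calc ‖fderiv ℂ F z z + α * nsq z * F z‖ ≤ M * ‖z‖ + α * nsq z * M := by
          refine (norm_add_le _ _).trans ?_
          rw [norm_mul, norm_mul, Complex.norm_real, Complex.norm_real, Real.norm_eq_abs,
            Real.norm_eq_abs, abs_of_pos hα, abs_of_nonneg hz0]
          gcongr
      _ ≤ M * (1 + nsq z) + α * (1 + nsq z) * M := by
          gcongr
          linarith
      _ = _ := by ring
  unfold V wgt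
  have hz1 : 0 < 1 + nsq z := by linarith
  have h2 : Real.exp (α * nsq z / 2) * Real.exp (-(α * nsq z / 2)) = 1 := by
    rw [← Real.exp_add]
    simp
  calc ‖rad h z‖ * (Real.exp (-(α * nsq z / 2)) / (1 + nsq z) ^ (s + 1))
      ≤ ((1 + α) * (1 + nsq z) * M) * (Real.exp (-(α * nsq z / 2)) / (1 + nsq z) ^ (s + 1)) := by
        gcongr
    _ = (1 + α) * ((2 + 2 * n) ^ s * Real.exp (α * n / 2)) * L *
        (Real.exp (α * nsq z / 2) * Real.exp (-(α * nsq z / 2))) := by
        rw [hM]
        field_simp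
        ring
    _ = _ := by rw [h2, mul_one]

theorem memLp_rad {p : ℝ≥0∞} (hp : p ≠ 0) {α : ℝ} (hα : 0 < α) (s : ℕ)
    {h : (Fin n → ℂ) → ℂ} (hh : Differentiable ℂ h) (hr : Continuous (rad h))
    (hmem : MemLp (V α s h) p volume) : MemLp (V α (s + 1) (rad h)) p volume := by
  obtain ⟨C, hC, hb⟩ := V_rad_le (n := n) hα s
  have h1 := (memLp_of_le_locSup hp hα s hh hmem).const_mul C
  refine h1.mono (continuous_V α (s + 1) hr).aestronglyMeasurable
    (Filter.Eventually.of_forall fun z => ?_)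
  rw [Real.norm_eq_abs, abs_of_nonneg (V_nonneg _ _ _ _)]
  exact (hb h hh z).trans (le_abs_self _)

/-- the radial step -/
theorem radial_step {α : ℝ} (hα : 0 < α) (s : ℕ) {h : (Fin n → ℂ) → ℂ} (hh : Differentiable ℂ h)
    (hr : Continuous (rad h)) (k : ℕ) (hk : 2 ≤ k) (t : ℝ) (ht0 : 0 < t)
    (ht : t ^ 2 = ((k : ℝ) - 1) / k) (z : Fin n → ℂ) (hz1 : (k : ℝ) ≤ nsq z)
    (hz2 : nsq z < (k : ℝ) + 1) :
    V α s h z ≤ Real.exp (-(α / 2)) * V α s h (t • z) + 4 * locSup 1 (V α (s + 1) (rad h)) z := by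
  have hk' : (2 : ℝ) ≤ k := by exact_mod_cast hk
  have hkpos : (0 : ℝ) < k := by linarith
  have ht1 : t < 1 := by
    have : t ^ 2 < 1 := by
      rw [ht, div_lt_one hkpos]
      linarith
    nlinarith
  have h1t : 1 - t ≤ 1 / k := by
    have h1 : 1 - t ^ 2 = 1 / k := by
      rw [ht]
      field_simp
      ring
    have h2 : 1 - t ≤ (1 - t) * (1 + t) := by nlinarith
    nlinarith
  have ht2 : 1 / 2 ≤ t := by
    have h1 : (1 / 2 : ℝ) ≤ t ^ 2 := by
      rw [ht, le_div_iff₀ hkpos]
      linarith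
    nlinarith
  have hz0 : 0 ≤ nsq z := nsq_nonneg z
  have hKc : Continuous (V α (s + 1) (rad h)) := continuous_V α (s + 1) hr
  set L := locSup 1 (V α (s + 1) (rad h)) z with hL
  have hL0 : 0 ≤ L := (V_nonneg α (s + 1) (rad h) z).trans (le_locSup hKc (by simp))
  have hzn : ‖z‖ ≤ k := by
    have h1 := norm_sq_le_nsq z
    have h2 : ‖z‖ ^ 2 ≤ (k : ℝ) ^ 2 := by nlinarith
    exact (pow_le_pow_iff_left₀ (norm_nonneg _) hkpos.le two_ne_zero).mp h2
  have hsmul : ∀ τ : ℝ, nsq (τ • z) = τ ^ 2 * nsq z := by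
    intro τ
    unfold nsq
    rw [Finset.mul_sum]
    refine Finset.sum_congr rfl fun i _ => ?_
    rw [Pi.smul_apply, norm_smul, mul_pow, Real.norm_eq_abs, sq_abs]
  -- derivative along the radius
  have hder : ∀ τ : ℝ, τ ∈ Icc t 1 → ‖fderiv ℂ h (τ • z) z‖ ≤
      2 * (L * (1 + nsq z) ^ (s + 1) * Real.exp (α * nsq z / 2)) := by
    intro τ hτ
    have hτ0 : 0 < τ := ht0.trans_le hτ.1
    have h1 : ‖(τ • z) - z‖ ≤ 1 := by
      have : (τ • z) - z = (τ - 1) • z := by rw [sub_smul, one_smul]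
      rw [this, norm_smul, Real.norm_eq_abs, abs_of_nonpos (by linarith [hτ.2])]
      calc -(τ - 1) * ‖z‖ ≤ (1 / k) * k := by
            have : -(τ - 1) ≤ 1 / k := by linarith [hτ.1]
            gcongr
        _ = 1 := by field_simp
    have h2 : V α (s + 1) (rad h) (τ • z) ≤ L := le_locSup hKc h1
    have h3 : ‖rad h (τ • z)‖ ≤ L * (1 + nsq z) ^ (s + 1) * Real.exp (α * nsq z / 2) := by
      have hN : nsq (τ • z) ≤ nsq z := by
        rw [hsmul]
        have : τ ^ 2 ≤ 1 := by nlinarith [hτ.2]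
        nlinarith
      have hN0 := nsq_nonneg (τ • z)
      have h31 : ‖rad h (τ • z)‖ = V α (s + 1) (rad h) (τ • z) *
          (1 + nsq (τ • z)) ^ (s + 1) * Real.exp (α * nsq (τ • z) / 2) := by
        unfold V wgt
        have : Real.exp (-(α * nsq (τ • z) / 2)) * Real.exp (α * nsq (τ • z) / 2) = 1 := by
          rw [← Real.exp_add]
          simp
        field_simp
        rw [mul_assoc, this, mul_one]
      rw [h31]
      have := V_nonneg α (s + 1) (rad h) (τ • z)
      gcongr
    have h4 : rad h (τ • z) = (τ : ℂ) * fderiv ℂ h (τ • z) z := by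
      unfold rad
      have : (τ • z : Fin n → ℂ) = (τ : ℂ) • z := by
        funext i
        simp
      conv_lhs => rw [this]
      rw [map_smul, smul_eq_mul, ← this]
    rw [h4, norm_mul, Complex.norm_real, Real.norm_eq_abs, abs_of_pos hτ0] at h3
    have h5 : 0 ≤ ‖fderiv ℂ h (τ • z) z‖ := norm_nonneg _
    have h6 : 1 / 2 ≤ τ := ht2.trans hτ.1
    nlinarith
  have hmv : ‖h z - h (t • z)‖ ≤
      2 * (L * (1 + nsq z) ^ (s + 1) * Real.exp (α * nsq z / 2)) * (1 - t) := by
    have hcast : ∀ τ : ℝ, (τ • z : Fin n → ℂ) = (τ : ℂ) • z := by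
      intro τ
      funext i
      simp
    have hd : ∀ τ : ℝ, HasDerivAt (fun τ : ℝ => h (τ • z)) (fderiv ℂ h (τ • z) z) τ := by
      intro τ
      have h1 : HasDerivAt (fun l : ℂ => h (l • z)) (fderiv ℂ h ((τ : ℂ) • z) z) (τ : ℂ) := by
        have h2 : HasDerivAt (fun l : ℂ => l • z) z (τ : ℂ) := by
          have := (hasDerivAt_id (τ : ℂ)).smul_const z
          simpa using this
        exact (hh ((τ : ℂ) • z)).hasFDerivAt.comp_hasDerivAt _ h2
      have h3 := h1.comp_ofReal
      simp only [← hcast] at h3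
      exact h3
    have h1 := Convex.norm_image_sub_le_of_norm_hasDerivWithin_le (f := fun τ : ℝ => h (τ • z))
      (s := Icc t 1) (x := t) (y := 1) (fun τ _ => (hd τ).hasDerivWithinAt) hder
      (convex_Icc t 1) (left_mem_Icc.mpr ht1.le) (right_mem_Icc.mpr ht1.le)
    rw [one_smul, Real.norm_eq_abs, abs_of_nonneg (by linarith)] at h1
    exact h1
  have hN1 : 0 < 1 + nsq z := by linarith
  have hexp1 : Real.exp (α * nsq z / 2) * Real.exp (-(α * nsq z / 2)) = 1 := by
    rw [← Real.exp_add]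
    simp
  have hA : ‖h z‖ ≤ ‖h (t • z)‖ + ‖h z - h (t • z)‖ := by
    have : h z = h (t • z) + (h z - h (t • z)) := by ring
    calc ‖h z‖ = ‖h (t • z) + (h z - h (t • z))‖ := by rw [← this]
      _ ≤ _ := norm_add_le _ _
  have hw0 := wgt_pos α s z
  have hB : ‖h z - h (t • z)‖ * wgt α s z ≤ 4 * L := by
    have h1 : (1 - t) * (1 + nsq z) ≤ 2 := by
      calc (1 - t) * (1 + nsq z) ≤ (1 / k) * (k + 2) := by
            have h0 : 0 ≤ 1 - t := by linarith
            have h2 : 1 + nsq z ≤ k + 2 := by linarith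
            gcongr
        _ ≤ 2 := by
            rw [one_div, inv_mul_le_iff₀ hkpos]
            linarith
    calc ‖h z - h (t • z)‖ * wgt α s z
        ≤ (2 * (L * (1 + nsq z) ^ (s + 1) * Real.exp (α * nsq z / 2)) * (1 - t)) * wgt α s z := by
          gcongr
      _ = 2 * L * ((1 - t) * (1 + nsq z)) *
          (Real.exp (α * nsq z / 2) * Real.exp (-(α * nsq z / 2))) := by
          unfold wgt
          field_simp
          ring
      _ ≤ 2 * L * 2 * 1 := by
          rw [hexp1]
          gcongr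
      _ = 4 * L := by ring
  have hC : ‖h (t • z)‖ * wgt α s z ≤ Real.exp (-(α / 2)) * V α s h (t • z) := by
    unfold V
    have h1 : wgt α s z ≤ Real.exp (-(α / 2)) * wgt α s (t • z) := by
      unfold wgt
      rw [hsmul, ← mul_div_assoc, ← Real.exp_add]
      have h2 : Real.exp (-(α * nsq z / 2)) ≤ Real.exp (-(α / 2) + -(α * (t ^ 2 * nsq z) / 2)) := by
        rw [Real.exp_le_exp]
        have h3 : 1 ≤ (1 - t ^ 2) * nsq z := by
          have : 1 - t ^ 2 = 1 / k := by
            rw [ht]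
            field_simp
            ring
          rw [this, one_div, inv_mul_eq_div, le_div_iff₀ hkpos]
          linarith
        nlinarith
      have h4 : (1 + t ^ 2 * nsq z) ^ s ≤ (1 + nsq z) ^ s := by
        have : t ^ 2 * nsq z ≤ nsq z := by
          have : t ^ 2 ≤ 1 := by nlinarith
          nlinarith
        gcongr
      have h5 : 0 < 1 + t ^ 2 * nsq z := by positivity
      gcongr
    calc ‖h (t • z)‖ * wgt α s z ≤ ‖h (t • z)‖ * (Real.exp (-(α / 2)) * wgt α s (t • z)) := by
          gcongr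
      _ = _ := by ring
  calc V α s h z = ‖h z‖ * wgt α s z := rfl
    _ ≤ (‖h (t • z)‖ + ‖h z - h (t • z)‖) * wgt α s z := by gcongr
    _ = ‖h (t • z)‖ * wgt α s z + ‖h z - h (t • z)‖ * wgt α s z := by ring
    _ ≤ _ := add_le_add hC hB

end Pool.Agent.V1173.Fock
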