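import Pool.Agent.V1173.Fock.Radial

/-!
# Radial derivatives and Fock spaces: summation over shells

Helper file for `MP_bbe01f_an`.
-/

open MeasureTheory Metric Set
open scoped ENNReal

namespace Pool.Agent.V1173.Fock

variable {n : ℕ}

theorem nsq_real_smul (τ : ℝ) (z : Fin n → ℂ) : nsq (τ • z) = τ ^ 2 * nsq z := by
  unfold nsq
  rw [Finset.mul_sum]
  refine Finset.sum_congr rfl fun i _ => ?_
  rw [Pi.smul_apply, norm_smul, mul_pow, Real.norm_eq_abs, sq_abs]

theorem ennreal_absorb {T X : ℝ≥0∞} {θ : ℝ} (hT : T ≠ ∞) (hX : X ≠ ∞) (h0 : 0 ≤ θ) (h1 : θ < 1)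
    (h : T ≤ X + ENNReal.ofReal θ * T) : T ≤ ENNReal.ofReal (X.toReal / (1 - θ)) := by
  have h2 : T.toReal ≤ X.toReal + θ * T.toReal := by
    have h3 : X + ENNReal.ofReal θ * T ≠ ∞ :=
      ENNReal.add_ne_top.mpr ⟨hX, ENNReal.mul_ne_top ENNReal.ofReal_ne_top hT⟩
    have h4 := ENNReal.toReal_mono h3 h
    rw [ENNReal.toReal_add hX (ENNReal.mul_ne_top ENNReal.ofReal_ne_top hT), ENNReal.toReal_mul,
      ENNReal.toReal_ofReal h0] at h4
    exact h4
  rw [← ENNReal.ofReal_toReal hT]
  apply ENNReal.ofReal_le_ofReal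
  rw [le_div_iff₀ (by linarith)]
  linarith

theorem tsum_finite_of_rec {a b : ℕ → ℝ≥0∞} {θ : ℝ} {C : ℝ≥0∞} (h0 : 0 ≤ θ) (h1 : θ < 1)
    (hC : C ≠ ∞) (ha : ∀ k, a k ≠ ∞) (hb : ∑' k, b k ≠ ∞) (k₀ : ℕ)
    (h : ∀ k, k₀ ≤ k → a (k + 1) ≤ ENNReal.ofReal θ * a k + C * b (k + 1)) :
    ∑' k, a k < ∞ := by
  obtain ⟨X, hX⟩ : ∃ X : ℝ≥0∞, X = ENNReal.ofReal θ * a k₀ + C * ∑' k, b k := ⟨_, rfl⟩
  have hXtop : X ≠ ∞ := by
    rw [hX]
    exact ENNReal.add_ne_top.mpr
      ⟨ENNReal.mul_ne_top ENNReal.ofReal_ne_top (ha _), ENNReal.mul_ne_top hC hb⟩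
  have hshift : ∀ m, ∑ i ∈ Finset.range m, a (i + k₀) ≤
      a k₀ + ∑ i ∈ Finset.range m, a (i + (k₀ + 1)) := by
    intro m
    have h2 : ∑ i ∈ Finset.range m, a (i + k₀) ≤ ∑ i ∈ Finset.range (m + 1), a (i + k₀) :=
      Finset.sum_le_sum_of_subset (Finset.range_mono (Nat.le_succ m))
    refine h2.trans (le_of_eq ?_)
    rw [Finset.sum_range_succ', zero_add, add_comm]
    congr 1
    refine Finset.sum_congr rfl fun i _ => ?_
    rw [show i + 1 + k₀ = i + (k₀ + 1) by omega]
  have hbs : ∀ m, ∑ i ∈ Finset.range m, b (i + k₀ + 1) ≤ ∑' k, b k := by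
    intro m
    have h3 : ∑ i ∈ Finset.range m, b (i + k₀ + 1) =
        ∑ i ∈ (Finset.range m).image (fun i => i + k₀ + 1), b i := by
      rw [Finset.sum_image]
      intro x _ y _ hxy
      have : x + k₀ + 1 = y + k₀ + 1 := hxy
      omega
    rw [h3]
    exact ENNReal.sum_le_tsum _
  have hT : ∀ m, ∑ i ∈ Finset.range m, a (i + (k₀ + 1)) ≤ ENNReal.ofReal (X.toReal / (1 - θ)) := by
    intro m
    have hfin : ∑ i ∈ Finset.range m, a (i + (k₀ + 1)) ≠ ∞ :=
      (ENNReal.sum_lt_top.mpr fun i _ => (ha _).lt_top).ne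
    refine ennreal_absorb hfin hXtop h0 h1 ?_
    have e1 : ∑ i ∈ Finset.range m, a (i + (k₀ + 1)) ≤
        ∑ i ∈ Finset.range m, (ENNReal.ofReal θ * a (i + k₀) + C * b (i + k₀ + 1)) := by
      refine Finset.sum_le_sum fun i _ => ?_
      exact h (i + k₀) (by omega)
    have e2 : ∑ i ∈ Finset.range m, (ENNReal.ofReal θ * a (i + k₀) + C * b (i + k₀ + 1)) =
        ENNReal.ofReal θ * ∑ i ∈ Finset.range m, a (i + k₀) +
          C * ∑ i ∈ Finset.range m, b (i + k₀ + 1) := by
      rw [Finset.sum_add_distrib, Finset.mul_sum, Finset.mul_sum]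
    have e3 : ENNReal.ofReal θ * ∑ i ∈ Finset.range m, a (i + k₀) +
          C * ∑ i ∈ Finset.range m, b (i + k₀ + 1) ≤
        ENNReal.ofReal θ * (a k₀ + ∑ i ∈ Finset.range m, a (i + (k₀ + 1))) + C * ∑' k, b k :=
      add_le_add (mul_le_mul_right (hshift m) _) (mul_le_mul_right (hbs m) _)
    refine e1.trans (e2.le.trans (e3.trans (le_of_eq ?_)))
    rw [hX, mul_add, add_right_comm]
  have hsplit : ∑' k, a k = ∑ k ∈ Finset.range (k₀ + 1), a k + ∑' i, a (i + (k₀ + 1)) :=
    (Summable.sum_add_tsum_nat_add' (f := a) (k := k₀ + 1) ENNReal.summable).symm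
  rw [hsplit]
  refine ENNReal.add_lt_top.mpr ⟨ENNReal.sum_lt_top.mpr fun i _ => (ha _).lt_top, ?_⟩
  exact (ENNReal.tsum_le_of_sum_range_le hT).trans_lt ENNReal.ofReal_lt_top

/-- shells -/
def shell (n k : ℕ) : Set (Fin n → ℂ) := {z | (k : ℝ) ≤ nsq z ∧ nsq z < (k : ℝ) + 1}

theorem measurableSet_shell (n k : ℕ) : MeasurableSet (shell n k) := by
  have hc := continuous_nsq (n := n)
  exact (measurableSet_le measurable_const hc.measurable).inter
    (measurableSet_lt hc.measurable measurable_const)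

theorem iUnion_shell (n : ℕ) : ⋃ k, shell n k = univ := by
  ext z
  simp only [mem_iUnion, mem_univ, iff_true]
  exact ⟨⌊nsq z⌋₊, Nat.floor_le (nsq_nonneg z), Nat.lt_floor_add_one _⟩

theorem disjoint_shell (n : ℕ) : Pairwise (Function.onFun Disjoint (shell n)) := by
  intro i j hij
  rw [Function.onFun, Set.disjoint_left]
  intro z hi hj
  apply hij
  have h1 : (i : ℝ) < j + 1 := hi.1.trans_lt hj.2
  have h2 : (j : ℝ) < i + 1 := hj.1.trans_lt hi.2
  have h3 : i < j + 1 := by exact_mod_cast h1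
  have h4 : j < i + 1 := by exact_mod_cast h2
  omega

theorem shell_subset (n k : ℕ) : shell n k ⊆ closedBall 0 ((k : ℝ) + 1) := by
  intro z hz
  rw [mem_closedBall_zero_iff]
  have h1 := norm_sq_le_nsq z
  have h2 : ‖z‖ ^ 2 ≤ ((k : ℝ) + 1) ^ 2 := by
    have := hz.2
    have hk : (0 : ℝ) ≤ k := by positivity
    nlinarith
  exact (pow_le_pow_iff_left₀ (norm_nonneg _) (by positivity) two_ne_zero).mp h2

theorem lintegral_smul_eq {G : (Fin n → ℂ) → ℝ≥0∞} (hG : Measurable G) {t : ℝ} (ht : 0 < t) :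
    ∫⁻ z, G (t • z) = ENNReal.ofReal ((1 / t ^ 2) ^ n) * ∫⁻ z, G z := by
  have h1 := Measure.map_addHaar_smul (volume : Measure (Fin n → ℂ)) ht.ne'
  have h2 : ∫⁻ z, G z ∂(Measure.map (fun z : Fin n → ℂ => t • z) volume) = ∫⁻ z, G (t • z) :=
    lintegral_map hG (measurable_const_smul t)
  rw [← h2, h1, lintegral_smul_measure, smul_eq_mul]
  congr 2
  have hfr : Module.finrank ℝ (Fin n → ℂ) = 2 * n := by
    simp [Module.finrank_pi_fintype, Complex.finrank_real_complex, mul_comm]
  rw [hfr, abs_of_nonneg (by positivity), pow_mul, one_div, inv_pow]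

theorem shell_scaling {g : (Fin n → ℂ) → ℝ≥0∞} (hg : Measurable g) (k : ℕ) (hk : 1 ≤ k) {t : ℝ}
    (ht0 : 0 < t) (ht : t ^ 2 = (k : ℝ) / (k + 1)) :
    ∫⁻ z in shell n (k + 1), g (t • z) ≤
      ENNReal.ofReal ((1 / t ^ 2) ^ n) * ∫⁻ z in shell n k, g z := by
  have hk' : (1 : ℝ) ≤ k := by exact_mod_cast hk
  rw [← lintegral_indicator (measurableSet_shell n k),
    ← lintegral_smul_eq (hg.indicator (measurableSet_shell n k)) ht0,
    ← lintegral_indicator (measurableSet_shell n (k + 1))]
  refine lintegral_mono fun z => ?_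
  by_cases hz : z ∈ shell n (k + 1)
  · have hmem : t • z ∈ shell n k := by
      obtain ⟨h1, h2⟩ := hz
      push_cast at h1 h2
      unfold shell
      rw [Set.mem_ofPred_eq, nsq_real_smul, ht]
      constructor
      · rw [div_mul_eq_mul_div, le_div_iff₀ (by positivity)]
        nlinarith
      · rw [div_mul_eq_mul_div, div_lt_iff₀ (by positivity)]
        nlinarith
    rw [indicator_of_mem hz, indicator_of_mem hmem]
  · rw [indicator_of_notMem hz]
    exact bot_le

theorem rpow_add_le_eps {a b ε p : ℝ} (ha : 0 ≤ a) (hb : 0 ≤ b) (hε : 0 < ε) (hp : 0 < p) :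
    (a + b) ^ p ≤ ((1 + ε) * a) ^ p + ((1 + 1 / ε) * b) ^ p := by
  by_cases h : b ≤ ε * a
  · have h1 : (a + b) ^ p ≤ ((1 + ε) * a) ^ p :=
      Real.rpow_le_rpow (by positivity) (by nlinarith) hp.le
    have h2 : 0 ≤ ((1 + 1 / ε) * b) ^ p := by positivity
    linarith
  · push Not at h
    have h3 : a ≤ b / ε := by
      rw [le_div_iff₀ hε]
      linarith
    have h1 : (a + b) ^ p ≤ ((1 + 1 / ε) * b) ^ p := by
      apply Real.rpow_le_rpow (by positivity) _ hp.le
      have : (1 + 1 / ε) * b = b + b / ε := by ring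
      rw [this]
      linarith
    have h2 : 0 ≤ ((1 + ε) * a) ^ p := by positivity
    linarith

/-- the hard direction, one step -/
theorem memLp_of_rad {p : ℝ≥0∞} (hp : p ≠ 0) {α : ℝ} (hα : 0 < α) (s : ℕ)
    {h : (Fin n → ℂ) → ℂ} (hh : Differentiable ℂ h) (hr : Differentiable ℂ (rad h))
    (hmem : MemLp (V α (s + 1) (rad h)) p volume) : MemLp (V α s h) p volume := by
  have hc := continuous_V α s hh.continuous
  have hKc := continuous_V α (s + 1) hr.continuous
  have hLmem := memLp_of_le_locSup hp hα (s + 1) hr hmem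
  set L := locSup 1 (V α (s + 1) (rad h)) with hL
  have hLc : Continuous L := continuous_locSup hKc
  have hL0 : ∀ z, 0 ≤ L z := fun z =>
    (V_nonneg α (s + 1) (rad h) z).trans (le_locSup hKc (by simp))
  have hstep : ∀ (k : ℕ) (hk : 1 ≤ k) (z : Fin n → ℂ), z ∈ shell n (k + 1) →
      V α s h z ≤ Real.exp (-(α / 2)) * V α s h (Real.sqrt ((k : ℝ) / (k + 1)) • z) + 4 * L z := by
    intro k hk z hz
    have hk' : (1 : ℝ) ≤ k := by exact_mod_cast hk
    have hpos : 0 < (k : ℝ) / (k + 1) := by positivity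
    refine radial_step hα s hh hr.continuous (k + 1) (by omega) _ (Real.sqrt_pos.mpr hpos) ?_ z
      hz.1 hz.2
    rw [Real.sq_sqrt hpos.le]
    push_cast
    congr 1
    ring
  by_cases hptop : p = ∞
  · subst hptop
    obtain ⟨M, hM⟩ := bound_of_memLp_top hα (s + 1) hr hmem
    have hLM : ∀ z, L z ≤ M := by
      intro z
      obtain ⟨w, -, hw⟩ := exists_locSup (by norm_num : (0 : ℝ) ≤ 1) hKc z
      rw [hL, hw]
      exact hM w
    have hM0 : 0 ≤ M := (hL0 0).trans (hLM 0)
    obtain ⟨M₁, hM₁⟩ : ∃ M₁, ∀ z ∈ closedBall (0 : Fin n → ℂ) 2, ‖V α s h z‖ ≤ M₁ :=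
      (isCompact_closedBall 0 2).exists_bound_of_continuousOn hc.continuousOn
    have hθ : Real.exp (-(α / 2)) < 1 := by
      rw [Real.exp_lt_one_iff]
      linarith
    set M₂ : ℝ := max M₁ (4 * M / (1 - Real.exp (-(α / 2)))) with hM₂
    have hind : ∀ k : ℕ, ∀ z ∈ shell n k, V α s h z ≤ M₂ := by
      intro k
      induction k with
      | zero =>
        intro z hz
        have h1 := hM₁ z (closedBall_subset_closedBall (by norm_num) (shell_subset n 0 hz))
        exact ((le_abs_self _).trans h1).trans (le_max_left _ _)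
      | succ k ih =>
        intro z hz
        rcases Nat.eq_zero_or_pos k with hk | hk
        · subst hk
          have h1 := hM₁ z (closedBall_subset_closedBall (by norm_num) (shell_subset n 1 hz))
          exact ((le_abs_self _).trans h1).trans (le_max_left _ _)
        · have h1 := hstep k hk z hz
          have hk' : (1 : ℝ) ≤ k := by exact_mod_cast hk
          have h2 : Real.sqrt ((k : ℝ) / (k + 1)) • z ∈ shell n k := by
            obtain ⟨h1, h2⟩ := hz
            push_cast at h1 h2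
            unfold shell
            rw [Set.mem_ofPred_eq, nsq_real_smul, Real.sq_sqrt (by positivity)]
            constructor
            · rw [div_mul_eq_mul_div, le_div_iff₀ (by positivity)]
              nlinarith
            · rw [div_mul_eq_mul_div, div_lt_iff₀ (by positivity)]
              nlinarith
          have h3 := ih _ h2
          have h4 : 4 * M ≤ (1 - Real.exp (-(α / 2))) * M₂ := by
            have h5 : 4 * M / (1 - Real.exp (-(α / 2))) ≤ M₂ := le_max_right _ _
            rw [div_le_iff₀ (by linarith)] at h5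
            linarith
          have h6 := hLM z
          have h7 : Real.exp (-(α / 2)) * V α s h (Real.sqrt ((k : ℝ) / (k + 1)) • z) ≤
              Real.exp (-(α / 2)) * M₂ := by gcongr
          linarith
    refine memLp_top_of_bound hc.aestronglyMeasurable M₂ (Filter.Eventually.of_forall fun z => ?_)
    rw [Real.norm_eq_abs, abs_of_nonneg (V_nonneg _ _ _ _)]
    have : z ∈ ⋃ k, shell n k := by rw [iUnion_shell]; trivial
    obtain ⟨k, hk⟩ := mem_iUnion.mp this
    exact hind k z hk
  · have hp' : 0 < p.toReal := ENNReal.toReal_pos hp hptop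
    set q := p.toReal with hq
    rw [memLp_iff hp hptop hc (V_nonneg α s h)]
    rw [memLp_iff hp hptop hLc hL0] at hLmem
    rw [← hq] at hLmem ⊢
    have hupc : Continuous fun z => V α s h z ^ q := hc.rpow_const fun _ => Or.inr hp'.le
    have hlpc : Continuous fun z => L z ^ q := hLc.rpow_const fun _ => Or.inr hp'.le
    have hum : Measurable fun z => ENNReal.ofReal (V α s h z ^ q) := hupc.measurable.ennreal_ofReal
    have hlm : Measurable fun z => ENNReal.ofReal (L z ^ q) := hlpc.measurable.ennreal_ofReal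
    set a : ℕ → ℝ≥0∞ := fun k => ∫⁻ z in shell n k, ENNReal.ofReal (V α s h z ^ q) with ha
    set b : ℕ → ℝ≥0∞ := fun k => ∫⁻ z in shell n k, ENNReal.ofReal (L z ^ q) with hb
    have hasum : ∫⁻ z, ENNReal.ofReal (V α s h z ^ q) = ∑' k, a k := by
      rw [← setLIntegral_univ, ← iUnion_shell n,
        lintegral_iUnion (measurableSet_shell n) (disjoint_shell n)]
    have hbsum : ∫⁻ z, ENNReal.ofReal (L z ^ q) = ∑' k, b k := by
      rw [← setLIntegral_univ, ← iUnion_shell n,
        lintegral_iUnion (measurableSet_shell n) (disjoint_shell n)]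
    rw [hasum]
    rw [hbsum] at hLmem
    have hafin : ∀ k, a k ≠ ∞ := by
      intro k
      obtain ⟨M, hM⟩ := (isCompact_closedBall (0 : Fin n → ℂ) ((k : ℝ) + 1)).exists_bound_of_continuousOn
        hupc.continuousOn
      have h1 : a k ≤ ENNReal.ofReal M * volume (closedBall (0 : Fin n → ℂ) ((k : ℝ) + 1)) := by
        rw [ha]
        simp only
        calc ∫⁻ z in shell n k, ENNReal.ofReal (V α s h z ^ q)
            ≤ ∫⁻ z in closedBall (0 : Fin n → ℂ) ((k : ℝ) + 1), ENNReal.ofReal (V α s h z ^ q) :=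
              lintegral_mono_set (shell_subset n k)
          _ ≤ ∫⁻ _z in closedBall (0 : Fin n → ℂ) ((k : ℝ) + 1), ENNReal.ofReal M := by
              refine setLIntegral_mono' measurableSet_closedBall fun z hz => ?_
              apply ENNReal.ofReal_le_ofReal
              exact (le_abs_self _).trans (hM z hz)
          _ = _ := by rw [setLIntegral_const]
      exact (h1.trans_lt (ENNReal.mul_lt_top ENNReal.ofReal_lt_top
        (isCompact_closedBall _ _).measure_lt_top)).ne
    -- constants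
    set ε : ℝ := Real.exp (α / 4) - 1 with hε
    have hε0 : 0 < ε := by
      rw [hε, sub_pos, Real.one_lt_exp_iff]
      linarith
    set C : ℝ := ((1 + 1 / ε) * 4) ^ q with hC
    set θ : ℝ := Real.exp (-(α * q / 8)) with hθ
    have hθ1 : θ < 1 := by
      rw [hθ, Real.exp_lt_one_iff]
      have : 0 < α * q := by positivity
      linarith
    obtain ⟨k₀, hk₀⟩ := exists_nat_ge (8 * n / (α * q))
    refine tsum_finite_of_rec (a := a) (b := b) (θ := θ) (C := ENNReal.ofReal C)
      (by positivity) hθ1 ENNReal.ofReal_ne_top hafin hLmem.ne (k₀ + 1) ?_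
    intro k hk
    have hk1 : 1 ≤ k := by omega
    have hk' : (1 : ℝ) ≤ k := by exact_mod_cast hk1
    set t : ℝ := Real.sqrt ((k : ℝ) / (k + 1)) with ht
    have hpos : 0 < (k : ℝ) / (k + 1) := by positivity
    have ht0 : 0 < t := Real.sqrt_pos.mpr hpos
    have ht2 : t ^ 2 = (k : ℝ) / (k + 1) := Real.sq_sqrt hpos.le
    have hpt : ∀ z ∈ shell n (k + 1), V α s h z ^ q ≤
        Real.exp (-(α * q / 4)) * V α s h (t • z) ^ q + C * L z ^ q := by
      intro z hz
      have h1 := hstep k hk1 z hz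
      have h2 := V_nonneg α s h (t • z)
      have h3 := hL0 z
      calc V α s h z ^ q ≤ (Real.exp (-(α / 2)) * V α s h (t • z) + 4 * L z) ^ q :=
            Real.rpow_le_rpow (V_nonneg _ _ _ _) h1 hp'.le
        _ ≤ ((1 + ε) * (Real.exp (-(α / 2)) * V α s h (t • z))) ^ q +
            ((1 + 1 / ε) * (4 * L z)) ^ q :=
            rpow_add_le_eps (by positivity) (by positivity) hε0 hp'
        _ = _ := by
            have h4 : (1 + ε) * (Real.exp (-(α / 2)) * V α s h (t • z)) =
                Real.exp (-(α / 4)) * V α s h (t • z) := by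
              rw [hε, ← mul_assoc]
              congr 1
              rw [add_sub_cancel, ← Real.exp_add]
              congr 1
              ring
            rw [h4, Real.mul_rpow (by positivity) h2, ← Real.exp_mul, hC, ← mul_assoc,
              Real.mul_rpow (by positivity) h3]
            congr 3
            ring
    have hθ' : Real.exp (-(α * q / 4)) * (1 / t ^ 2) ^ n ≤ θ := by
      have h1 : (1 / t ^ 2) ^ n ≤ Real.exp (α * q / 8) := by
        have h2 : 1 / t ^ 2 = 1 + 1 / (k : ℝ) := by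
          rw [ht2]
          field_simp
        rw [h2]
        have h3 : (1 + 1 / (k : ℝ)) ≤ Real.exp (1 / k) := by
          have := Real.add_one_le_exp (1 / (k : ℝ))
          linarith
        calc (1 + 1 / (k : ℝ)) ^ n ≤ Real.exp (1 / k) ^ n := by gcongr
          _ = Real.exp (n * (1 / k)) := by rw [← Real.exp_nat_mul]
          _ ≤ Real.exp (α * q / 8) := by
            rw [Real.exp_le_exp]
            have h4 : (k₀ : ℝ) ≤ k := by exact_mod_cast (by omega : k₀ ≤ k)
            have h5 := hk₀.trans h4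
            rw [div_le_iff₀ (by positivity)] at h5
            rw [mul_one_div, div_le_iff₀ (by positivity)]
            linarith
      calc Real.exp (-(α * q / 4)) * (1 / t ^ 2) ^ n
          ≤ Real.exp (-(α * q / 4)) * Real.exp (α * q / 8) := by gcongr
        _ = θ := by
          rw [hθ, ← Real.exp_add]
          congr 1
          ring
    have hmsmul : Measurable fun z : Fin n → ℂ => ENNReal.ofReal (V α s h (t • z) ^ q) :=
      hum.comp (measurable_const_smul t)
    calc a (k + 1) = ∫⁻ z in shell n (k + 1), ENNReal.ofReal (V α s h z ^ q) := rfl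
      _ ≤ ∫⁻ z in shell n (k + 1), (ENNReal.ofReal (Real.exp (-(α * q / 4))) *
          ENNReal.ofReal (V α s h (t • z) ^ q) + ENNReal.ofReal C * ENNReal.ofReal (L z ^ q)) := by
          refine setLIntegral_mono' (measurableSet_shell n (k + 1)) fun z hz => ?_
          have h2 := V_nonneg α s h (t • z)
          have h3 := hL0 z
          rw [← ENNReal.ofReal_mul (by positivity), ← ENNReal.ofReal_mul (by positivity),
            ← ENNReal.ofReal_add (by positivity) (by positivity)]
          exact ENNReal.ofReal_le_ofReal (hpt z hz)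
      _ = ENNReal.ofReal (Real.exp (-(α * q / 4))) *
          (∫⁻ z in shell n (k + 1), ENNReal.ofReal (V α s h (t • z) ^ q)) +
          ENNReal.ofReal C * b (k + 1) := by
          rw [lintegral_add_left (hmsmul.const_mul _), lintegral_const_mul' _ _ ENNReal.ofReal_ne_top,
            lintegral_const_mul' _ _ ENNReal.ofReal_ne_top]
      _ ≤ ENNReal.ofReal (Real.exp (-(α * q / 4))) *
          (ENNReal.ofReal ((1 / t ^ 2) ^ n) * a k) + ENNReal.ofReal C * b (k + 1) := by
          gcongr
          exact shell_scaling hum k hk1 ht0 ht2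
      _ = ENNReal.ofReal (Real.exp (-(α * q / 4)) * (1 / t ^ 2) ^ n) * a k +
          ENNReal.ofReal C * b (k + 1) := by
          rw [← mul_assoc, ← ENNReal.ofReal_mul (by positivity)]
      _ ≤ ENNReal.ofReal θ * a k + ENNReal.ofReal C * b (k + 1) := by
          gcongr

end Pool.Agent.V1173.Fock
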